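import Pool.Agent.H49.S6R.Lev
import Pool.Agent.H79.RPL.Nl2
import Pool.Agent.H87.RPL.Hno
import Pool.Agent.H33.S6.Zof
import Pool.Agent.H23.S6E.Ld2
import Pool.Agent.H95.S6.Rte
import Pool.Agent.H48.S6.RplA
import Pool.Agent.H45.RPL.One

/-!
# The plateau of the thickness: `RPLAStmt`
-/

set_option autoImplicit false

namespace Pool.RPL

open Finset Real
open Pool.Agent.H49.Ent Pool.Agent.H32.Dense Pool.STK Pool.KA Pool.KSAT Pool.K2S Pool.PB
  Pool.KS6 Pool.S6C Pool.KA.Vd Pool.Sel51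

theorem cst_le {D : ℝ} (hD : 1 ≤ D) : cst 8 D ≤ cst 8 1 + 12 * Real.log D := by
  have hD0 : 0 < D := by linarith only [hD]
  have h1 : Real.log (6 * (D + D * D) + 3) ≤ Real.log (6 * (1 + 1 * 1) + 3) + 2 * Real.log D := by
    have e1 : Real.log (6 * (1 + 1 * 1) + 3) + 2 * Real.log D =
        Real.log ((6 * (1 + 1 * 1) + 3) * (D * D)) := by
      rw [Real.log_mul (by norm_num) (by positivity), Real.log_mul hD0.ne' hD0.ne']
      ring
    rw [e1]
    refine Real.log_le_log (by positivity) ?_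
    nlinarith only [hD]
  have h2 : Real.log (6 * D + 3) ≤ Real.log (6 * 1 + 3) + Real.log D := by
    rw [← Real.log_mul (by norm_num) hD0.ne']
    refine Real.log_le_log (by positivity) ?_
    nlinarith only [hD]
  unfold cst
  generalize Real.log (6 * (D + D * D) + 3) = l1 at h1 ⊢
  generalize Real.log (6 * (1 + 1 * 1) + 3) = l2 at h1 ⊢
  generalize Real.log (6 * D + 3) = l3 at h2 ⊢
  generalize Real.log (6 * 1 + 3) = l4 at h2 ⊢
  push_cast
  linarith only [h1, h2]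

/-- `J` is large. -/
theorem jlg_of {m' X₀ : ℕ} {x θ η μ x₀ lm : ℝ} (hx : 0 < x) (hθ : 0 < θ) (hη : 0 < η)
    (hμ : 24 * η ≤ μ) (hlm : 0 < lm) : ∃ J₁ : ℕ, ∀ J : ℕ, J₁ ≤ J → JLg J m' x θ η μ x₀ lm X₀ := by
  have hμ0 : 0 < μ := by linarith only [hη, hμ]
  obtain ⟨n1, h1⟩ := exists_nat_gt (32 / (θ * x))
  obtain ⟨n2, h2⟩ := exists_nat_gt (((m' : ℝ) + 4) / x)
  obtain ⟨n3, h3⟩ := exists_nat_gt (((X₀ : ℝ) + 8) / x)
  obtain ⟨n4, h4⟩ := exists_nat_gt ((Pool.UST.visC 8 8 + lm) / (lm * x))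
  obtain ⟨K, hK⟩ : ∃ K, K = cst 8 1 + 12 * (Real.log 9 + 3 * Real.log 2) := ⟨_, rfl⟩
  obtain ⟨n5, h5⟩ := exists_nat_gt (K / (μ / 2 * x))
  rw [div_lt_iff₀ (by positivity)] at h1 h2 h3 h4 h5
  refine ⟨n1 + n2 + n3 + n4 + n5, fun J hJ => ?_⟩
  have g1 : (n1 : ℝ) ≤ J := by exact_mod_cast (by omega : n1 ≤ J)
  have g2 : (n2 : ℝ) ≤ J := by exact_mod_cast (by omega : n2 ≤ J)
  have g3 : (n3 : ℝ) ≤ J := by exact_mod_cast (by omega : n3 ≤ J)
  have g4 : (n4 : ℝ) ≤ J := by exact_mod_cast (by omega : n4 ≤ J)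
  have g5 : (n5 : ℝ) ≤ J := by exact_mod_cast (by omega : n5 ≤ J)
  have k1 := mul_le_mul_of_nonneg_right g1 (show 0 ≤ θ * x by positivity)
  have k2 := mul_le_mul_of_nonneg_right g2 hx.le
  have k3 := mul_le_mul_of_nonneg_right g3 hx.le
  have k4 := mul_le_mul_of_nonneg_right g4 (show 0 ≤ lm * x by positivity)
  have k5 := mul_le_mul_of_nonneg_right g5 (show 0 ≤ μ / 2 * x by positivity)
  refine ⟨by linarith only [h1, k1], by linarith only [h2, k2], by linarith only [h3, k3], by linarith only [h4, k4], ?_⟩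
  have hz : 0 ≤ η * x * J := by positivity
  have f1 : (⌊η * x * J⌋₊ : ℝ) ≤ η * x * J := Nat.floor_le hz
  have hl2 : 0 < Real.log 2 := Real.log_pos (by norm_num)
  have hl2' : Real.log 2 ≤ 1 := by
    have := Real.log_two_lt_d9
    linarith only [hl2, this]
  have hD : (1 : ℝ) ≤ 9 * 2 ^ (⌊η * x * J⌋₊ + 3) := by
    have : (1 : ℝ) ≤ 2 ^ (⌊η * x * J⌋₊ + 3) := one_le_pow₀ (by norm_num)
    linarith only [this]
  refine (cst_le hD).trans ?_
  rw [Real.log_mul (by norm_num) (by positivity), Real.log_pow]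
  push_cast
  have m1 : (⌊η * x * J⌋₊ : ℝ) * Real.log 2 ≤ η * x * J * 1 :=
    mul_le_mul f1 hl2' hl2.le hz
  have m2 : 24 * η * (x * J) ≤ μ * (x * J) := mul_le_mul_of_nonneg_right hμ (by positivity)
  linarith only [hK, h5, k5, m1, m2]

section cls

variable {S : PCl 3} {a R h₁ : ℝ} {i₀ : Fin 3} {c s₂ : ℝ} {r : ℝ → ℝ} {D : Set ℝ} {σ : ℝ → Row}
  {act : ℚ → ℝ} {K : Set ℝ} {W : ℝ → ℝ} {v₁ t : ℚ} {e₁ Q₀ P g v₀ v a₀ α : ℝ}

/-- The windows. -/
theorem rlv_of (hC : Cs S a R h₁ i₀ c s₂ r D σ)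
    (hL : Loc S i₀ c s₂ r D σ act K W v₁ t e₁ Q₀ P g v₀ v 0 a₀ α) (hv : 0 < v) {N n M m' A₁ : ℕ}
    (hA₁ : 3 ≤ A₁ * v) (hm' : A₁ * v + 3 ≤ m') {θ η x₀ : ℝ} (hθ : 0 < θ) (hθ1 : θ ≤ 1 / 4)
    (hθx : 4 * θ ≤ x₀) (hη : 0 < η) (hηθ : 8 * η ≤ θ) :
    ∃ x₁ : ℝ, 0 < x₁ ∧ ∀ x : ℚ, 0 < x → (x : ℝ) ≤ x₁ → ∃ (ul uc : ℚ) (u : ℕ → ℚ) (gP gG : ℝ),
      RLv N n M m' x θ η (W g) g P (g - W g - θ * x) ((σ 1).rot ul) ((σ 1).rot uc)
        ((σ 1).th ul) ((σ 1).th uc) gP gG (A₁ + 2 * N + 4) (A₁ + 2 * N + 4 + n + 6) x₀ ul uc u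
        (fun j => (σ 1).th (u j)) ∧
      (uc : ℝ) ≤ v₁ ∧ (∀ j ≤ N, (u j : ℝ) ≤ v₁) ∧ gP < (σ 1).pi ∧ (σ 1).rot uc < (σ 1).pi ∧
      0 ≤ gG ∧ gG < (σ 1).sN v₁ t ∧ gG + (θ * x) < g - W g + 7 * e₁ := by
  obtain ⟨G₀, hG₀, hroom⟩ := hL.room_all hC hv.ne'
  obtain ⟨Aw, hAw⟩ : ∃ Aw : ℝ, Aw = A₁ + 2 * N + 4 := ⟨_, rfl⟩
  have hAw4 : 4 ≤ Aw := by
    rw [hAw]
    have h1 : (0 : ℝ) ≤ A₁ := Nat.cast_nonneg _
    have h2 : (0 : ℝ) ≤ N := Nat.cast_nonneg _
    linarith only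
  obtain ⟨δr, hδr, hr⟩ := hL.rot (θ / (16 * Aw)) (by positivity)
  obtain ⟨δt, hδt, ht⟩ := hL.th (θ / (16 * Aw)) (by positivity)
  obtain ⟨k, hk⟩ : ∃ k : ℝ, k = v * Aw + Aw + n + M + 10 := ⟨_, rfl⟩
  have hn0 : (0 : ℝ) ≤ n := Nat.cast_nonneg _
  have hM0 : (0 : ℝ) ≤ M := Nat.cast_nonneg _
  have hN0 : (0 : ℝ) ≤ N := Nat.cast_nonneg _
  have hA0 : (0 : ℝ) ≤ A₁ := Nat.cast_nonneg _
  have hvA : 0 ≤ v * Aw := by positivity
  have hk0 : 0 < k := by rw [hk]; linarith only [hθ1, hη, hηθ, hAw, hvA]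
  refine ⟨min (G₀ / (k + 1)) (min (δr / (2 * Aw)) (δt / (2 * Aw))), by
    refine lt_min (by positivity) (lt_min ?_ ?_) <;> positivity, fun x hx hxx => ?_⟩
  have hx0 : (0 : ℝ) < x := by exact_mod_cast hx
  have b1 : (k + 1) * x ≤ G₀ := by
    have := hxx.trans (min_le_left _ _)
    rw [le_div_iff₀ (by linarith only [hθ1, hη, hηθ, hAw, hk, hvA])] at this
    linarith only [this]
  have b2 : Aw * x < δr := by
    have := hxx.trans ((min_le_right _ _).trans (min_le_left _ _))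
    rw [le_div_iff₀ (by linarith only [hθ1, hη, hηθ, hAw])] at this
    have : 0 < Aw * x := by positivity
    linarith
  have b3 : Aw * x < δt := by
    have := hxx.trans ((min_le_right _ _).trans (min_le_right _ _))
    rw [le_div_iff₀ (by linarith only [hθ1, hη, hηθ, hAw])] at this
    have : 0 < Aw * x := by positivity
    linarith
  obtain ⟨g1, g2, g3, g4, g5, g6, g7, g8, g9, g10, g11, g12⟩ := hroom ((k + 1) * x) b1
  -- the slopes
  have hslr : ∀ q : ℚ, W g ≤ q → (q : ℝ) ≤ W g + Aw * x →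
      |(σ 1).rot q - v₀ - v * (q - W g)| ≤ θ / 16 * x ∧
      |(σ 1).th q - g - (q - W g)| ≤ θ / 16 * x := by
    intro q h1 h2
    have h3 : |(q : ℝ) - W g| ≤ Aw * x := by
      rw [abs_le]
      constructor <;> linarith
    have h4 : θ / (16 * Aw) * |(q : ℝ) - W g| ≤ θ / 16 * x := by
      have h5 : θ / (16 * Aw) * |(q : ℝ) - W g| ≤ θ / (16 * Aw) * (Aw * x) :=
        mul_le_mul_of_nonneg_left h3 (by positivity)
      refine h5.trans (le_of_eq ?_)
      field_simp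
    refine ⟨(hr q (h3.trans_lt b2)).trans h4, ?_⟩
    have h6 := (ht q (h3.trans_lt b3)).trans h4
    rw [add_zero, one_mul] at h6
    exact h6
  obtain ⟨ul, ul1, ul2⟩ := exists_rat_btwn (show W g < W g + x by linarith only [hx0])
  obtain ⟨uc, huc⟩ : ∃ uc : ℚ, uc = ul + A₁ * x := ⟨_, rfl⟩
  have euc : (uc : ℝ) = ul + A₁ * x := by rw [huc]; push_cast; ring
  obtain ⟨u, hu⟩ : ∃ u : ℕ → ℚ, u = fun j : ℕ => uc + x + 2 * x * ((N : ℚ) - j) := ⟨_, rfl⟩
  have eu : ∀ j : ℕ, (u j : ℝ) = uc + x + 2 * x * ((N : ℝ) - j) := fun j => by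
    rw [hu]
    push_cast
    ring
  have hA₁x : 0 ≤ (A₁ : ℝ) * x := by positivity
  have hNx : 0 ≤ (N : ℝ) * x := by positivity
  have hAwx : Aw * x = A₁ * x + 2 * (N * x) + 4 * x := by rw [hAw]; ring
  have hnx : 0 ≤ (n : ℝ) * x := by positivity
  have hMx : 0 ≤ (M : ℝ) * x := by positivity
  have hvAx : 0 ≤ v * Aw * x := by positivity
  have hkx : k * x = v * Aw * x + Aw * x + n * x + M * x + 10 * x := by rw [hk]; ring
  have hθx0 : 0 < θ * x := by positivity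
  have hθx1 : θ * x ≤ x / 4 := by
    have := mul_le_mul_of_nonneg_right hθ1 hx0.le
    linarith only [this]
  have hηx0 : 0 < η * x := by positivity
  have hηx1 : 8 * (η * x) ≤ θ * x := by
    have := mul_le_mul_of_nonneg_right hηθ hx0.le
    linarith only [this]
  have huj : ∀ j ≤ N, (uc : ℝ) + x ≤ u j ∧ (u j : ℝ) ≤ W g + Aw * x := fun j hj => by
    have h1 : (j : ℝ) ≤ N := by exact_mod_cast hj
    have h2 : 0 ≤ (x : ℝ) * ((N : ℝ) - j) := mul_nonneg hx0.le (by linarith only [h1])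
    have h3 : 0 ≤ (x : ℝ) * j := by positivity
    rw [eu]
    constructor
    · linarith only [h2]
    · linarith only [ul2, euc, hAwx, hθx1, hηx0, hηx1, h3]
  obtain ⟨sl1, sl2⟩ := hslr ul ul1.le (by linarith only [ul2, hA₁x, hNx, hAwx, hθx1, hηx0, hηx1])
  obtain ⟨sc1, sc2⟩ := hslr uc (by linarith only [ul1, euc, hA₁x]) (by linarith only [ul2, euc, hNx, hAwx, hθx1, hηx0, hηx1])
  rw [abs_le] at sl1 sl2 sc1 sc2
  have hvx : 0 ≤ v * ((ul : ℝ) - W g) := mul_nonneg hv.le (by linarith only [ul1])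
  have hvx2 : v * ((ul : ℝ) - W g) ≤ v * x := mul_le_mul_of_nonneg_left (by linarith only [ul2]) hv.le
  have hvA4 : v * x ≤ v * Aw * x := by
    have : v * (1 * x) ≤ v * (Aw * x) :=
      mul_le_mul_of_nonneg_left (mul_le_mul_of_nonneg_right (by linarith only [hθ1, hη, hηθ, hAw]) hx0.le) hv.le
    linarith only [this]
  have evc : v * ((uc : ℝ) - W g) = v * ((ul : ℝ) - W g) + A₁ * v * x := by rw [euc]; ring
  have hA3 : 3 * (x : ℝ) ≤ A₁ * v * x := mul_le_mul_of_nonneg_right hA₁ hx0.le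
  have hAm : (A₁ * v : ℝ) * x ≤ ((m' : ℝ) - 3) * x :=
    mul_le_mul_of_nonneg_right (by linarith only [hm']) hx0.le
  have hvc : v * ((uc : ℝ) - W g) ≤ v * (Aw * x) :=
    mul_le_mul_of_nonneg_left (by linarith only [ul2, euc, hNx, hAwx, hθx1, hηx0, hηx1]) hv.le
  have hrl0 : 0 ≤ (σ 1).rot ul := by
    have hul0 : (0 : ℝ) ≤ ul := by linarith only [g9, ul1, hA₁x, hNx, hAwx, hnx, hMx, hkx, hθx1, hηx0, hηx1, hvx, evc, hA3, hvc, hL.w0]
    have hul1 : (ul : ℝ) ≤ 1 := by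
      have h4 : (v₁ : ℝ) < 1 := by exact_mod_cast hL.adm.v1
      linarith only [g6, ul2, hA₁x, hNx, hAwx, hnx, hMx, hkx, hθx1, hηx0, hηx1, hvx, evc, hA3, hvc, h4]
    exact hC.rot_nn (by exact_mod_cast hul0) (by exact_mod_cast hul1)
  have hgP := hL.gP
  refine ⟨ul, uc, u, (P - g) + v₀ + k * x, P - W g + k * x, ?_, ?_, ?_, ?_, ?_, ?_, ?_, ?_⟩
  · rw [← hAw]
    refine ⟨hx0, hθ, hθ1, hθx, hη, hηθ, rfl, hL.w0.le, by linarith only [hAw], ul1.le, ?_, ?_, ?_, ?_, hrl0,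
      ?_, ?_, ?_, ?_, ?_, ?_, ?_, ?_, ?_, ?_, ?_, ?_, ?_, ?_, le_rfl⟩
    · have : (ul : ℝ) ≤ uc := by linarith only [euc, hA₁x]
      exact_mod_cast this
    · exact (huj N le_rfl).1
    · intro j hj
      rw [eu, eu]
      push_cast
      linarith only [hθx1, hηx0, hηx1]
    · intro j hj
      exact ⟨by linarith only [ul1, euc, hA₁x, hθx1, hηx0, hηx1, huj, hj, (huj j hj).1], (huj j hj).2⟩
    · linarith only [hθx1, hηx0, hηx1, sl1, sc1, evc, hA3]
    · linarith only [hθx1, hηx0, hηx1, sl1, sc1, evc, hAm]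
    · linarith only [g11, hA₁x, hNx, hAwx, hnx, hMx, hkx, hθx1, hηx0, hηx1, sc1, hvc]
    · linarith only [hηx0, hηx1, sl2]
    · rw [abs_le]
      constructor <;> linarith
    · linarith only [hηx0, hηx1, sc2]
    · rw [abs_le]
      constructor <;> linarith
    · intro j hj
      have h1 := huj j hj.le
      have h2 := (hslr (u j) (by linarith only [ul1, euc, hA₁x, hθx1, hηx0, hηx1, h1, h1.1]) h1.2).2
      rw [abs_le] at h2
      linarith only [hηx0, hηx1, h2, h2.2]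
    · linarith only [g8, hnx, hMx, hkx, hθx1, hηx0, hηx1, hvx, evc, hA3, hvc]
    · linarith only [g7, hA₁x, hNx, hAwx, hkx, hθx1, hηx0, hηx1, hvx, evc, hA3, hvc]
    · linarith only [hA₁x, hNx, hAwx, hkx, hθx1, hηx0, hηx1, sl1, evc, hA3, hvc]
    · linarith only [hA₁x, hNx, hAwx, hkx, hθx1, hηx0, hηx1, hvx, evc, hA3, hvc]
    · linarith only [g8, hA₁x, hNx, hAwx, hnx, hMx, hkx, hθx1, hηx0, hηx1, hvx, evc, hA3, hvc]
    · intro j hj
      have h1 := huj j hj.le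
      have h2 := (hslr (u j) (by linarith only [ul1, euc, hA₁x, hθx1, hηx0, hηx1, h1, h1.1]) h1.2).2
      rw [abs_le] at h2
      linarith only [g7, g8, hA₁x, hNx, hAwx, hnx, hMx, hkx, hθx1, hηx0, hηx1, hvx, evc, hA3, hvc, h1, h2, h2.2, h1.2]
  · linarith only [g6, ul2, euc, hNx, hAwx, hnx, hMx, hkx, hθx1, hηx0, hηx1, hvx, evc, hA3, hvc, (huj N le_rfl).2, (huj N le_rfl).1]
  · intro j hj
    linarith only [g6, hnx, hMx, hkx, hθx1, hηx0, hηx1, hvx, evc, hA3, hvc, huj, hj, (huj j hj).2]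
  · linarith only [g1, hθx1, hηx0, hηx1]
  · linarith only [g1, g8, hA₁x, hNx, hAwx, hnx, hMx, hkx, hθx1, hηx0, hηx1, sc1, hvx, evc, hA3, hvc]
  · linarith only [g8, g11, hA₁x, hNx, hAwx, hnx, hMx, hkx, hθx1, hηx0, hηx1, sl1, hvx, evc, hA3, hvc, hrl0]
  · linarith only [g3, hθx1, hηx0, hηx1]
  · linarith only [g5, g8, hA₁x, hNx, hAwx, hnx, hMx, hkx, hθx1, hηx0, hηx1, hvx, evc, hA3, hvc]

end cls

/-- **The plateau of the thickness**, from (NAT). -/
theorem rpla_of (hone : RplOneStmt) (hN : NATStmt) : RPLAStmt := by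
  intro S a R h₁ i₀ c s₂ r D σ hC act K W v₁ t e₁ Q₀ P g v₀ v ρ a₀ α hL hΓ
  obtain ⟨hv, hρ⟩ := hΓ
  subst hρ
  have hc := hC.c0
  have hα := hL.α0
  obtain ⟨x₀, lm, κ, ϖ, ε, X₀, N, M, hx₀, hlm, hκ, hκ1, hϖ, hϖ1, hε, hN0, hM, hRPL⟩ :=
    hone (c / 2) (α / 2) 8 (by linarith only [hc]) (by linarith only [hα]) (by norm_num)
  have hl2p : 0 < Real.log 2 := Real.log_pos (by norm_num)
  -- the constants
  obtain ⟨θ, hθe⟩ : ∃ θ : ℝ, θ = min x₀ 1 / 4 := ⟨_, rfl⟩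
  have hθ : 0 < θ := by rw [hθe]; exact div_pos (lt_min hx₀ one_pos) (by norm_num)
  have hθ1 : θ ≤ 1 / 4 := by
    rw [hθe]
    have := min_le_right x₀ 1
    linarith only [this]
  have hθx : 4 * θ ≤ x₀ := by
    rw [hθe]
    have := min_le_left x₀ 1
    linarith only [this]
  obtain ⟨μ, hμ⟩ : ∃ μ : ℝ, μ = c * Real.log 2 / 32 := ⟨_, rfl⟩
  have hμ0 : 0 < μ := by rw [hμ]; positivity
  obtain ⟨A₁, hA₁⟩ := exists_nat_gt (3 / v)
  rw [div_lt_iff₀ hv] at hA₁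
  obtain ⟨m', hm'⟩ := exists_nat_gt ((A₁ : ℝ) * v + 3)
  obtain ⟨T, hT⟩ := exists_nat_gt (2 * (m' : ℝ) / μ)
  rw [div_lt_iff₀ hμ0] at hT
  obtain ⟨C, hCe⟩ : ∃ C : ℝ, C = A₁ + 2 * N + 4 + ((T * M : ℕ) : ℝ) + 6 := ⟨_, rfl⟩
  have hC0 : 0 < C := by rw [hCe]; positivity
  obtain ⟨ε₀, XN, hε₀, hXN, hnat⟩ := nat_unif hN hC hL (ε := μ / C) (by positivity)
  obtain ⟨η, hηe⟩ : ∃ η : ℝ, η = min (ε₀ * C) (min (θ / 8) (μ / 24)) := ⟨_, rfl⟩
  have hη : 0 < η := by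
    rw [hηe]
    exact lt_min (by positivity) (lt_min (by positivity) (by positivity))
  have hηN : η ≤ ε₀ * C := by rw [hηe]; exact min_le_left _ _
  have hηθ : 8 * η ≤ θ := by
    have : η ≤ θ / 8 := by rw [hηe]; exact (min_le_right _ _).trans (min_le_left _ _)
    linarith only [this]
  have hημ : 24 * η ≤ μ := by
    have : η ≤ μ / 24 := by rw [hηe]; exact (min_le_right _ _).trans (min_le_right _ _)
    linarith only [this]
  obtain ⟨δA, hδA, hat⟩ := rpl_act_time hC hL hκ hϖ hC0 hlm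
  have hP1 : P < 1 := (hL.pr P hL.row).lt1
  have hP0 : 0 < P := by
    have := (hL.pr P hL.row).half
    linarith only [hθ1, hη, hηθ, this]
  obtain ⟨XR, hXR, hrt⟩ := rte hC hP0 hP1 hL.rate (ϖ := 1) (ε := μ / C) one_pos (by positivity)
  obtain ⟨x₁, hx₁, hlv⟩ := rlv_of hC hL hv (N := N) (n := T * M) (M := M) (m' := m') hA₁.le
    hm'.le hθ hθ1 hθx hη hηθ
  -- the block
  obtain ⟨x, hx0, hx1⟩ := exists_rat_btwn (show (0 : ℝ) < min x₁ (min δA (min (XN / C) (XR / C))) by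
    refine lt_min hx₁ (lt_min hδA (lt_min ?_ ?_)) <;> positivity)
  have m1 : (x : ℝ) ≤ x₁ := hx1.le.trans (min_le_left _ _)
  have m2 : (x : ℝ) ≤ δA := hx1.le.trans ((min_le_right _ _).trans (min_le_left _ _))
  have m3 : C * x ≤ XN := by
    have := hx1.le.trans ((min_le_right _ _).trans ((min_le_right _ _).trans (min_le_left _ _)))
    rw [le_div_iff₀ hC0] at this
    linarith only [this]
  have m4 : C * x ≤ XR := by
    have := hx1.le.trans ((min_le_right _ _).trans ((min_le_right _ _).trans (min_le_right _ _)))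
    rw [le_div_iff₀ hC0] at this
    linarith only [this]
  have hCx : 0 < C * x := by positivity
  obtain ⟨ul, uc, u, gP, gG, L, w1, w2, w3, w4, w5, w6, w7⟩ := hlv x (by exact_mod_cast hx0) m1
  rw [← hCe] at L
  have hulc : (ul : ℝ) ≤ uc := by exact_mod_cast L.ulc
  have hAwx : ((A₁ : ℝ) + 2 * N + 4) * x ≤ C * x := by
    refine mul_le_mul_of_nonneg_right ?_ hx0.le
    linarith only [hθ1, hCe, hη, hηθ, L.CC, Nat.cast_nonneg (α := ℝ) (T * M)]
  have huN := L.uw N le_rfl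
  have hucu := L.ucu
  have hv1 : (v₁ : ℝ) < 1 := by exact_mod_cast hL.adm.v1
  have hθx0 : 0 < θ * x := by positivity
  have hηx0 : 0 < η * x := by positivity
  have hW0 := hL.w0
  have hR0 : 0 < g - W g - θ * x := by linarith only [hx0, L, L.r3, L.r1, L.r0]
  -- the labels
  have c1 := nl_two hC hL.adm 1 (sel uc ul)
    (sel ((σ 1).rot uc - η * x) ((σ 1).rot ul - η * x))
    (sel ((σ 1).th uc - η * x) ((σ 1).th ul - η * x))
    (fun _ => g - W g - θ * x - (σ 1).rot uc) (fun _ => gG) (g := gP)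
    (fun j hj => by
      obtain rfl : j = 0 := by omega
      exact L.ulc)
    (fun j hj => by
      rcases j with _ | j
      · show 0 ≤ uc
        exact_mod_cast (hW0.le.trans (L.ulW.trans hulc))
      · show 0 ≤ ul
        exact_mod_cast (hW0.le.trans L.ulW))
    (fun j hj => by
      rcases j with _ | j
      · show uc ≤ v₁
        exact_mod_cast w1
      · show ul ≤ v₁
        exact_mod_cast (hulc.trans w1)) w3
    (fun j hj => by
      rcases j with _ | j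
      · show (σ 1).rot uc - η * x < (σ 1).rot uc
        linarith only [hηx0]
      · show (σ 1).rot ul - η * x < (σ 1).rot ul
        linarith only [hηx0])
    (fun j hj => by
      rcases j with _ | j
      · show (σ 1).th uc - η * x < (σ 1).th uc
        linarith only [hηx0]
      · show (σ 1).th ul - η * x < (σ 1).th ul
        linarith only [hηx0])
    (fun j hj => by
      rcases j with _ | j
      · show (uc : ℝ) + ((σ 1).rot uc - η * x) ≤ (σ 1).th uc - η * x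
        linarith only [hx0, hθx0, hηx0, L, L.tc1, L.r3]
      · show (ul : ℝ) + ((σ 1).rot ul - η * x) ≤ (σ 1).th ul - η * x
        linarith only [hx0, hθx0, hηx0, L, L.tl1, L.r3, L.r1])
    (fun j hj => by
      rcases j with _ | j
      · show (uc : ℝ) < (σ 1).th uc - η * x
        linarith only [hθx0, hR0, L, L.tc1]
      · show (ul : ℝ) < (σ 1).th ul - η * x
        linarith only [hθx0, hR0, L, L.tl1])
    (fun j hj => by
      obtain rfl : j = 0 := by omega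
      exact w4)
    (fun j hj => by
      obtain rfl : j = 0 := by omega
      show (σ 1).rot uc < (σ 1).th uc - η * x - uc ∧ (σ 1).rot uc < (σ 1).th ul - η * x - ul
      exact ⟨by linarith only [hx0, hθx0, L, L.tc1, L.r3], by linarith only [hx0, hθx0, L, L.tl1, L.r3]⟩)
    (fun j hj => by
      obtain rfl : j = 0 := by omega
      show g - W g - θ * x - (σ 1).rot uc < (σ 1).th uc - η * x - uc - (σ 1).rot uc ∧
        g - W g - θ * x - (σ 1).rot uc < (σ 1).th ul - η * x - ul - (σ 1).rot uc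
      exact ⟨by linarith only [hθx0, L, L.tc1], by linarith only [hθx0, L, L.tl1]⟩)
    (fun j hj => w5) (fun j hj => w6)
    (fun j hj => by
      rcases j with _ | j
      · show gG < (σ 1).th uc - η * x - uc + 7 * e₁
        linarith only [w7, hθx0, L, L.tc1]
      · show gG < (σ 1).th ul - η * x - ul + 7 * e₁
        linarith only [w7, hθx0, L, L.tl1])
  -- the rows
  have c2 := hnat (C * x) hCx m3 ul (by
    rw [abs_le]
    constructor <;> linarith [L.ulW])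
  have c3 := hnat (C * x) hCx m3 uc (by
    rw [abs_le]
    constructor <;> linarith [L.ulW])
  have c4 := hrt (C * x) hCx m4
  have c5 := hat x hx0 m2
  have c6 : Clp S (fun J F A => ∀ j < N, ∀ iu iN : Fin 3, (∀ j : Fin 3, j = i₀ ∨ j = iu ∨ j = iN) →
      ∀ B' : F.Ω → Prop, Sub B' A →
        Real.exp (-(-Real.log ε + KS6.KC (8 + 9))) * Pe F.p A ≤ Pe F.p B' →
        ¬ LABq F J i₀ iu iN ⌊(u j : ℝ) * J⌋₊ 0 ⌊((σ 1).th (u j) + θ * x) * J⌋₊ 2 B') :=
    Clp.all N fun j hj => hno_clp hC (u := u j) (by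
      have := (L.uw j hj.le).1
      exact_mod_cast (hW0.le.trans this)) (by
      have h1 := w2 j hj.le
      have : (u j : ℝ) ≤ 1 := by linarith only [hv1, h1]
      exact_mod_cast this) (by linarith only [hθx0]) (L.t3 j hj)
  have c7 : Clp S (fun _ F A => 0 < Pe F.p A) :=
    Clp.of one_pos 0 fun J _ F A hA => hC.evpos 1 J F A hA
  obtain ⟨J₁, hJ₁⟩ := jlg_of (m' := m') (X₀ := X₀) (x₀ := x₀) hx0 hθ hη hημ hlm
  refine Clp.not_false hC.ne (Clp.mono (J₂ := J₁)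
    ((((((c1.and c2).and c3).and c4).and c5).and c6).and c7) ?_)
  rintro J hJ F A ⟨⟨⟨⟨⟨⟨⟨iu, iN, e, n, z, hNL, hSn, hcase⟩, d2⟩, d3⟩, d4⟩, d5⟩, d6⟩, hA⟩
  have hJL := hJ₁ J hJ
  have hJ0 : (0 : ℝ) ≤ J := Nat.cast_nonneg J
  have eμ : μ / C * (C * x) * J = μ * x * J := by field_simp
  have hbij := ord_bij hNL.hi
  have hfl : ∀ f : ℝ, ⌊(f - ε₀ * (C * x)) * J⌋₊ ≤ ⌊(f - η * x) * J⌋₊ := fun f => by
    refine Nat.floor_le_floor (mul_le_mul_of_nonneg_right ?_ hJ0)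
    have := mul_le_mul_of_nonneg_right hηN hx0.le
    linarith only [this]
  have hw10 : ⌊((ul : ℚ) : ℝ) * J⌋₊ ≤ ⌊((uc : ℚ) : ℝ) * J⌋₊ :=
    Nat.floor_le_floor (mul_le_mul_of_nonneg_right hulc hJ0)
  have hwJ : ⌊((uc : ℚ) : ℝ) * J⌋₊ ≤ J := by
    refine Nat.floor_le_of_le ?_
    have : (uc : ℝ) * J ≤ 1 * J := mul_le_mul_of_nonneg_right (by linarith only [w1, hv1]) hJ0
    linarith only [this]
  have hz1 := nl_nat hNL (j := 1) le_rfl (hfl ((σ 1).rot ul)) (hfl ((σ 1).th ul))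
  have hz0 := nl_nat hNL (j := 0) (by norm_num) (hfl ((σ 1).rot uc)) (hfl ((σ 1).th uc))
  have hsl := sl_of_nl hNL (i := 1) (j := 0) le_rfl hw10 hwJ
  obtain ⟨sg, X, w, r', U, P', a', s, t', kk, bb, hX, hRI⟩ := lev_rin (μ := μ) (T := T) (c := c)
    (ca := α / 2) (κ := κ) (ϖ := ϖ) (ε := ε) L hJL hNL (hSn 1 le_rfl) hcase hA hM hc hμ hT hlm
    (fun X hX => (d5 X hX).1)
    (fun X hX q X' => (d5 X hX).2 q X')
    (fun P₁ P₂ h12 hP₁ hP₂ => by
      have := d4 A (fun _ h => h) (by rw [one_mul]) P₁ P₂ h12 hP₁ hP₂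
      rw [eμ] at this
      exact this)
    (fun l U P' q hq h1 h2 h3 h4 h5 => by
      have := d2 (ord i₀ iu iN) hbij rfl (z 1) hz1 Unit (fun _ => ())
        ⟨fun _ _ _ _ _ => rfl, fun _ _ _ _ _ => rfl⟩ l U P' q hq h1 h2 h3 h4 h5
      rw [eμ] at this
      exact this)
    (fun l U P' q hq h1 h2 h3 h4 h5 => by
      have := d3 (ord i₀ iu iN) hbij rfl (z 0) hz0 Pln (z 1) hsl l U P' q hq h1 h2 h3 h4 h5
      rw [eμ] at this
      exact this)
    hε d6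
  exact hRPL J F A sg X w r' U P' a' s t' kk bb hX hRI

/-- **The plateau of the thickness**: the only hypothesis is (NAT). -/
theorem rpla_nat (hN : NATStmt) : RPLAStmt := rpla_of rpl_one hN

end Pool.RPL
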