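import Pool.Agent.H23.S6E.Vdf2
import Pool.Agent.H2.UST.Fr

/-!
# The plateau of the thickness: the deficit of the block of rows

The frame of the contexts has the direction `a` of the window `w_c` and the normal form `(s, t)` of
the plank of the coarser window `w_l`. The block of `x_e` and of the normal coordinate is not full;
Principle M for the digits of `a`.
-/

set_option autoImplicit false

namespace Pool.RPL

open Finset Real
open Pool.Agent.H49.Ent Pool.Agent.H32.Dense Pool.STK Pool.KA Pool.K2S Pool.KA.Vd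

variable {J : ℕ}

section dfc

variable {F : Fam 3 J} {p : F.Ω → ℝ} {σ : Fin 3 → Fin 3} {a el sl tl ec sc tc : F.Ω → ℝ}
  {τ τ' : Type}

/-- The information of `a` about the rows of the next `δ` digits. -/
noncomputable def lss (F : Fam 3 J) (p : F.Ω → ℝ) (σ : Fin 3 → Fin 3) (r U P δ : ℕ)
    (a el sl tl : F.Ω → ℝ) (Θ : F.Ω → τ) : ℝ :=
  CH p a (fun ω => (F.sbx σ r U P el sl tl ω, Θ ω)) -
    CH p a (fun ω => (F.sbx σ (r + δ) (U + δ) P el sl tl ω, Θ ω))

theorem lss_nonneg (hp : IsLaw p) {r U P δ : ℕ} (Θ : F.Ω → τ) :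
    0 ≤ lss F p σ r U P δ a el sl tl Θ := by
  unfold lss
  have : CH p a (fun ω => (F.sbx σ (r + δ) (U + δ) P el sl tl ω, Θ ω)) ≤
      CH p a (fun ω => (F.sbx σ r U P el sl tl ω, Θ ω)) :=
    CH_mono_cond hp.nonneg fun _ _ _ _ e => Prod.ext
      (sbx_lift (by omega) (by omega) le_rfl (Prod.ext_iff.mp e).1) (Prod.ext_iff.mp e).2
  linarith

/-- The constant of a row. -/
noncomputable def cst (B D : ℝ) : ℝ :=
  (K1 B + K2 B) + (3 * K1 B + K2 B + (3 : ℕ) * Real.log (6 * (D + D * D) + 3) +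
    (3 : ℕ) * Real.log (6 * D + 3)) + ((3 : ℕ) * Real.log (6 * B + 3) +
    (3 : ℕ) * Real.log (6 * D + 3))

/-- **One block of rows.** -/
theorem dfc_row (hp : IsLaw p) (hσ : Function.Bijective σ) {r U P X δ : ℕ} {B D : ℝ}
    (hB : 1 ≤ B) (hD : 1 ≤ D) (h1 : r + δ ≤ P) (h2 : U + δ ≤ P + X) (hU : U ≤ P)
    (hba : ∀ ω, 0 < p ω → |a ω| ≤ B)
    (hbl : ∀ ω, 0 < p ω → |el ω| ≤ B ∧ |sl ω| ≤ B ∧ |tl ω| ≤ B)
    (hbc : ∀ ω, 0 < p ω → |ec ω| ≤ B ∧ |sc ω| ≤ B ∧ |tc ω| ≤ B)
    (hn1 : ∀ ω, 0 < p ω → |a ω - el ω| ≤ D * 2 ^ (r + X) / 2 ^ U)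
    (hn2 : ∀ ω, 0 < p ω → Fnr (r + X + δ) (U + δ) (P + X) D (ec ω) (sc ω) (tc ω) (a ω) (sl ω)
      (tl ω))
    (Θ : F.Ω → τ) (Ξ : F.Ω → τ') (hΘ : Det p Θ F.W) (hfl : Fd p Θ el sl tl)
    (hΞ : Det p Ξ Θ) (hfc : Fd p Ξ ec sc tc) (hfa : Det p Ξ a) :
    CH p (F.sbx σ (r + X) U (P + X) a sl tl) (fun ω => (F.sbx σ r U P a sl tl ω, F.W ω)) ≤
      CH p (F.X (P + X)) (fun ω => (F.X P ω, F.W ω)) - X * Real.log 2 +
        F.vdf p σ (r + X) U (P + X) el sl tl Θ +
        F.vdf p σ (r + X + δ) (U + δ) (P + X) ec sc tc Ξ +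
        lss F p σ (r + X) U (P + X) δ a el sl tl Θ + cst B D := by
  have hD0 : 0 ≤ D := by linarith
  have hb : ∀ ω, 0 < p ω → |a ω| ≤ B ∧ |sl ω| ≤ B ∧ |tl ω| ≤ B :=
    fun ω hω => ⟨hba ω hω, (hbl ω hω).2⟩
  have k1 := block_le (σ := σ) (a := a) (s := sl) (t := tl) (r := r) (U := U) (P := P)
    (r' := r + X) (U' := U) (P' := P + X) hp hσ hB (by omega) le_rfl (by omega) (by omega)
    hU (by omega) (by omega) hb F.W
  have k2 := vdf_cond (σ := σ) (a := a) (s := sl) (t := tl) (r := r + X) (U := U) (N := P + X)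
    hp F.W (fun ω => (a ω, Θ ω)) (fun ω ω' x y e => hΘ ω ω' x y (Prod.ext_iff.mp e).2)
  have k3 := vdf_fine (σ := σ) (a := el) (s := sl) (t := tl) (a' := a) (s' := sl) (t' := tl)
    (r := r + X) (U := U) (N := P + X) (δ := δ) hp hσ hB hD (by omega) h2 hbl hb
    (fun ω hω => by
      refine ⟨hn1 ω hω, ?_, ?_⟩
      · rw [sub_self, abs_zero]
        positivity
      · rw [sub_self, sub_self, zero_mul, add_zero, abs_zero]
        positivity) Θ hfl a (fun ω ω' x y e => by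
      have e1 := Prod.ext_iff.mp e
      obtain ⟨g1, g2, g3⟩ := hfl.eq x y e1.2
      exact Prod.ext e1.1 (Prod.ext g2 g3))
  have k4 := vdf_cond (σ := σ) (a := a) (s := sl) (t := tl) (r := r + X + δ) (U := U + δ)
    (N := P + X) hp (fun ω => (a ω, Θ ω)) Ξ (fun ω ω' x y e =>
      Prod.ext (hfa ω ω' x y e) (hΞ ω ω' x y e))
  have k5 := vdf_chg (σ := σ) (a := a) (s := sl) (t := tl) (a' := ec) (s' := sc) (t' := tc)
    (r := r + X + δ) (U := U + δ) (N := P + X) hp hB hD (by omega) h2 hbc hn2 Ξ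
    (fun ω ω' x y e => by
      obtain ⟨g1, g2, g3⟩ := hfl.eq x y (hΞ ω ω' x y e)
      exact Prod.ext (hfa ω ω' x y e) (Prod.ext g2 g3)) hfc
  have e : (((((r + X : ℕ) : ℝ)) - r) + ((U : ℝ) - U) - 2 * ((((P + X : ℕ) : ℝ)) - P)) *
      Real.log 2 = -(X * Real.log 2) := by
    push_cast
    ring
  rw [e] at k1
  unfold lss cst
  linarith

/-- The sum of the losses over interleaved chains of rows. -/
theorem lss_sum (hp : IsLaw p) {r U P X δ m' : ℕ} (hδ : δ ≤ m' * X) (Θ : F.Ω → τ) (n : ℕ) :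
    ∑ k ∈ range (n * m'), lss F p σ (r + k * X) (U + k * X) (P + k * X) δ a el sl tl Θ ≤
      m' * CH p a Θ := by
  have h0 := hp.nonneg
  have key : ∀ i < m', ∑ j ∈ range n, lss F p σ (r + (j * m' + i) * X) (U + (j * m' + i) * X)
      (P + (j * m' + i) * X) δ a el sl tl Θ ≤ CH p a Θ := by
    intro i _
    have h := prinM (σ := σ) (a := el) (s := sl) (t := tl) hp (n := n)
      (fun j => r + (j * m' + i) * X) (fun j => U + (j * m' + i) * X)
      (fun j => P + (j * m' + i) * X) (fun j => r + (j * m' + i) * X + δ)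
      (fun j => U + (j * m' + i) * X + δ) Θ a
      (fun j _ => by
        show r + (j * m' + i) * X + δ ≤ r + ((j + 1) * m' + i) * X
        have : ((j + 1) * m' + i) * X = (j * m' + i) * X + m' * X := by ring
        omega)
      (fun j _ => by
        show U + (j * m' + i) * X + δ ≤ U + ((j + 1) * m' + i) * X
        have : ((j + 1) * m' + i) * X = (j * m' + i) * X + m' * X := by ring
        omega)
      (fun j _ => by
        show P + (j * m' + i) * X ≤ P + ((j + 1) * m' + i) * X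
        have : ((j + 1) * m' + i) * X = (j * m' + i) * X + m' * X := by ring
        omega)
    refine le_trans h (CH_mono_cond h0 ?_)
    intro ω ω' _ _ e
    exact (Prod.ext_iff.mp e).2
  have e1 : ∑ k ∈ range (n * m'), lss F p σ (r + k * X) (U + k * X) (P + k * X) δ a el sl tl Θ =
      ∑ i ∈ range m', ∑ j ∈ range n, lss F p σ (r + (j * m' + i) * X) (U + (j * m' + i) * X)
      (P + (j * m' + i) * X) δ a el sl tl Θ := by
    rw [Finset.sum_comm]
    clear key
    induction n with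
    | zero => simp
    | succ n ih =>
      rw [Finset.sum_range_succ, ← ih, Nat.succ_mul, Finset.sum_range_add]
  rw [e1]
  calc _ ≤ ∑ i ∈ range m', CH p a Θ :=
        Finset.sum_le_sum fun i hi => key i (Finset.mem_range.1 hi)
    _ = _ := by
        rw [Finset.sum_const, Finset.card_range, nsmul_eq_mul]

end dfc

/-- Consecutive rows with small losses. -/
theorem exists_rows (f : ℕ → ℝ) (hf : ∀ k, 0 ≤ f k) {M T : ℕ} {S β : ℝ}
    (hS : ∑ k ∈ range (T * M), f k ≤ S) (hβ : S < T * β) :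
    ∃ g < T, ∀ k < M, f (g * M + k) ≤ β := by
  by_contra hcon
  push Not at hcon
  have e1 : ∑ k ∈ range (T * M), f k = ∑ g ∈ range T, ∑ k ∈ range M, f (g * M + k) := by
    clear hS hβ hcon
    induction T with
    | zero => simp
    | succ T ih =>
      rw [Finset.sum_range_succ, ← ih, Nat.succ_mul, Finset.sum_range_add]
  have h1 : ∀ g ∈ range T, β ≤ ∑ k ∈ range M, f (g * M + k) := by
    intro g hg
    obtain ⟨k, hk, hk2⟩ := hcon g (Finset.mem_range.1 hg)
    refine hk2.le.trans ?_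
    exact Finset.single_le_sum (f := fun k => f (g * M + k)) (fun i _ => hf _)
      (Finset.mem_range.2 hk)
  have h2 := Finset.sum_le_sum h1
  rw [Finset.sum_const, Finset.card_range, nsmul_eq_mul] at h2
  linarith

/-- A rounded number, given a number nearby. -/
theorem CH_rd {Ω T : Type} [Fintype Ω] {p : Ω → ℝ} (hp : IsLaw p) (a : Ω → ℝ) (Θ : Ω → T)
    {k l : ℕ} (hkl : l ≤ k) (ha : ∀ ω, ∃ n : ℤ, a ω = n / 2 ^ k) (e : Ω → ℝ) (he : Det p Θ e)
    {D : ℝ} (hD : 1 ≤ D) (h : ∀ ω, 0 < p ω → |a ω - e ω| ≤ D / 2 ^ l) :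
    CH p a Θ ≤ ((k : ℝ) - l) * Real.log 2 + Real.log (5 * D) := by
  classical
  choose n hn using ha
  have hk : (0 : ℝ) < 2 ^ k := by positivity
  have hl : (0 : ℝ) < 2 ^ l := by positivity
  obtain ⟨d, hd⟩ := Nat.exists_eq_add_of_le hkl
  have hd0 : (0 : ℝ) < 2 ^ d := by positivity
  have e2 : (2 : ℝ) ^ k = 2 ^ l * 2 ^ d := by rw [hd, pow_add]
  have h1 : CH p n Θ ≤ Real.log (2 * (2 * (D * 2 ^ d)) + 1) := by
    have h2 := Plk.CH_vec_const (m := 1) hp (fun ω _ => n ω) Θ (c := 2 * (D * 2 ^ d))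
      (fun ω ω' a1 a2 a3 _ => by
        have b1 := h ω a1
        have b2 := h ω' a2
        rw [← he ω ω' a1 a2 a3] at b2
        have c1 : ∀ o, (n o : ℝ) = 2 ^ k * a o := by
          intro o
          rw [hn o]
          field_simp
        push_cast
        rw [c1, c1, ← mul_sub]
        have c2 : a ω - a ω' = (a ω - e ω) - (a ω' - e ω) := by ring
        rw [c2, abs_mul, abs_of_pos hk]
        have c3 : |a ω - e ω - (a ω' - e ω)| ≤ D / 2 ^ l + D / 2 ^ l :=
          (abs_sub _ _).trans (add_le_add b1 b2)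
        calc (2 : ℝ) ^ k * |a ω - e ω - (a ω' - e ω)| ≤ 2 ^ k * (D / 2 ^ l + D / 2 ^ l) :=
              mul_le_mul_of_nonneg_left c3 hk.le
          _ = 2 * (D * 2 ^ d) := by
              rw [e2]
              field_simp
              ring)
    have h3 : CH p n Θ ≤ CH p (fun ω (_ : Fin 1) => n ω) Θ :=
      CH_mono_left hp.nonneg fun ω ω' _ _ h => congrFun (Prod.ext_iff.mp h).1 0
    have h4 : ((1 : ℕ) : ℝ) * Real.log (2 * (2 * (D * 2 ^ d)) + 1) =
      Real.log (2 * (2 * (D * 2 ^ d)) + 1) := by norm_num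
    linarith
  have h5 : CH p a Θ ≤ CH p n Θ := by
    refine CH_mono_left hp.nonneg ?_
    intro ω ω' _ _ hh
    have : n ω = n ω' := (Prod.ext_iff.mp hh).1
    rw [hn ω, hn ω', this]
  refine h5.trans (h1.trans ?_)
  have e3 : ((k : ℝ) - l) * Real.log 2 + Real.log (5 * D) = Real.log (2 ^ d * (5 * D)) := by
    rw [Real.log_mul hd0.ne' (by positivity), Real.log_pow, hd]
    push_cast
    ring
  rw [e3]
  refine Real.log_le_log (by positivity) ?_
  have h6 : (1 : ℝ) ≤ 2 ^ d := one_le_pow₀ (by norm_num)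
  nlinarith

end Pool.RPL
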