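import Pool.Agent.H49.S6R.Fld
import Pool.Agent.H62.S6.Nl
import Pool.Agent.H23.S6E.Stmts

/-!
# The plateau of the thickness: the frame of two natural labels

The frame has the direction of the label `z 0` of the finer window, rounded, and the normal of the
label `z 1` of the coarser window.
-/

set_option autoImplicit false

namespace Pool.RPL

open Finset Real
open Pool.Agent.H49.Ent Pool.Agent.H32.Dense Pool.STK Pool.KA Pool.KSAT Pool.K2S Pool.PB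
  Pool.KS6 Pool.S6C

variable {J : ℕ}

/-- Rounding. -/
noncomputable def rnd (n : ℕ) (x : ℝ) : ℝ := ((⌊(2 : ℝ) ^ n * x⌋ : ℤ) : ℝ) / 2 ^ n

theorem rnd_near (n : ℕ) (x : ℝ) : |rnd n x - x| ≤ 1 / 2 ^ n := by
  rw [abs_sub_comm]
  exact floor_near n x

theorem rnd_grid (n : ℕ) (x : ℝ) : ∃ z : ℤ, rnd n x = z / 2 ^ n := ⟨_, rfl⟩

/-- The order of the coordinates. -/
def ord (i₀ iu iN : Fin 3) : Fin 3 → Fin 3 := ![i₀, iu, iN]

theorem ord_bij {i₀ iu iN : Fin 3} (hi : ∀ j : Fin 3, j = i₀ ∨ j = iu ∨ j = iN) :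
    Function.Bijective (ord i₀ iu iN) := by
  refine Function.Surjective.bijective_of_finite fun j => ?_
  rcases hi j with h | h | h
  · exact ⟨0, h.symm⟩
  · exact ⟨1, h.symm⟩
  · exact ⟨2, h.symm⟩

theorem Inc.lower {i0 iu iN : Fin 3} {w lam P lam' P' : ℕ} {C : ℝ} {y : Pln} {t : ℝ}
    {x d : Fin 3 → ℝ} (h : Inc i0 iu iN w lam P C y t x d) (hC : 0 ≤ C) (h1 : lam' ≤ lam)
    (h2 : P' ≤ P) : Inc i0 iu iN w lam' P' C y t x d := by
  have p1 : ∀ {m n : ℕ}, m ≤ n → C / (2 : ℝ) ^ n ≤ C / 2 ^ m := fun h => div_pow_le hC h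
  refine ⟨h.e_le, h.c_le, h.s_le, h.pe, h.pu.trans (p1 (by omega)), h.pn.trans (p1 h2), h.ve,
    h.vu.trans (p1 h1), h.vn.trans (div_pow_le (by positivity) h2)⟩

/-- Natural labels in the form of (NAT). -/
theorem nl_nat {F : Fam 3 J} {A : F.Ω → Prop} {i₀ iu iN : Fin 3} {N Pu : ℕ} {w V T H : ℕ → ℕ}
    {e n : (Fin 3 → ℤ) × (ℕ × F.ζ) → Fin 3 → ℝ} {z : ℕ → F.Ω → Pln}
    (h : Pool.S6F.NLc F A i₀ iu iN N Pu w V T H e n z) {j : ℕ} (hj : j ≤ N) {V' T' : ℕ}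
    (hV : V' ≤ V j) (hT : T' ≤ T j) :
    Pool.S6C.NL F A (ord i₀ iu iN) (w j) V' T' (z j) := by
  refine ⟨fun ω hω => Inc.lower (h.inc j hj ω hω) (by norm_num) hV hT, ?_, ?_⟩
  · intro ω ω' hω hω' e1
    obtain ⟨φ, hφ⟩ := h.zp j hj
    rw [hφ ω hω, hφ ω' hω']
    exact congrArg φ e1
  · intro ω ω' _ _ e1
    obtain ⟨ψ, hψ⟩ := h.zs j hj
    rw [hψ ω, hψ ω', e1]

section two

variable {F : Fam 3 J} {A : F.Ω → Prop} {i₀ iu iN : Fin 3} {Pu G kV kR : ℕ} {w V T H : ℕ → ℕ}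
  {e n : (Fin 3 → ℤ) × (ℕ × F.ζ) → Fin 3 → ℝ} {z : ℕ → F.Ω → Pln}

/-- **The frame**, and the turning of the normal. -/
theorem pf_of_nl (h : Pool.S6F.NLc F A i₀ iu iN 1 Pu w V T H e n z)
    (hS : Pool.S6F.SnG F A i₀ iu iN G e (z 1)) (hkV : kV ≤ V 0) (hkR : w 1 + kR ≤ T 1)
    (hw : w 1 ≤ w 0) (hJ : w 0 ≤ J) (hk7 : 7 ≤ kV) (hVR : kV ≤ kR)
    (hcase : (∀ ω, A ω → |(z 1 ω).s| ≤ 2) ∨ ∀ ω, A ω → 2 ≤ |(z 1 ω).s|)
    (hl : IsLaw (Pool.Agent.H49.Ent.cond F.p A True)) :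
    ∃ al nu kk bb : (Fin 3 → ℤ) × (ℕ × F.ζ) → ℝ,
      PF F A (ord i₀ iu iN) (w 0) kV Pu G kR (fun ω => rnd kV (z 0 ω).e) (frs (z 1)) (frt (z 1))
        al nu kk bb 8 ∧
      ∀ (v ag P2 : ℕ) (κ : ℝ), w 0 ≤ v → v ≤ J → P2 ≤ v + ag → P2 ≤ v + G → P2 ≤ J →
        (∀ iu' iN' : Fin 3, (∀ j : Fin 3, j = i₀ ∨ j = iu' ∨ j = iN') →
          ∀ B' : F.Ω → Prop, Sub B' A →
          Real.exp (-(κ + KS6.KC (8 + 9))) * Pe F.p A ≤ Pe F.p B' →
          ¬ KS6.LABq F J i₀ iu' iN' v 0 P2 2 B') →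
        Pe (cpy (Pool.Agent.H49.Ent.cond F.p A True) (slam F v))
          (fun x => |kk (Fam.pt F x.1) - kk (Fam.pt F x.2)| ≤ 1 / 2 ^ ag) ≤ Real.exp (-κ) := by
  obtain ⟨b, hb⟩ := hS
  obtain ⟨φ0, hφ0⟩ := h.zp 0 (by norm_num)
  obtain ⟨ψ0, hψ0⟩ := h.zs 0 (by norm_num)
  obtain ⟨φ1, hφ1⟩ := h.zp 1 le_rfl
  obtain ⟨ψ1, hψ1⟩ := h.zs 1 le_rfl
  have hpt : ∀ ω, ptq F J ω = Fam.pt F ω := fun ω => rfl
  have hsl : ∀ ω ω', slam F (w 0) ω = slam F (w 0) ω' → z 0 ω = z 0 ω' ∧ z 1 ω = z 1 ω' := by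
    intro ω ω' e1
    have e2 : slam F (w 1) ω = slam F (w 1) ω' := by
      rw [slam_coarse F (w := w 1) (w' := w 0) hw hJ ω,
        slam_coarse F (w := w 1) (w' := w 0) hw hJ ω', e1]
    exact ⟨by rw [hψ0 ω, hψ0 ω', e1], by rw [hψ1 ω, hψ1 ω', e2]⟩
  have hpp : ∀ ω ω', A ω → A ω' → Fam.pt F ω = Fam.pt F ω' → z 0 ω = z 0 ω' ∧ z 1 ω = z 1 ω' := by
    intro ω ω' hω hω' e1
    exact ⟨by rw [hφ0 ω hω, hφ0 ω' hω', hpt, hpt, e1], by rw [hφ1 ω hω, hφ1 ω' hω', hpt, hpt, e1]⟩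
  have hnear : ∀ ω, A ω → |e (Fam.pt F ω) iu - rnd kV (z 0 ω).e| ≤ 5 / 2 ^ kV := by
    intro ω hω
    have h1 := rnd_near kV (z 0 ω).e
    have h2 := h.ze 0 (by norm_num) ω hω
    have h3 : (4 : ℝ) / 2 ^ V 0 ≤ 4 / 2 ^ kV := div_pow_le (by norm_num) hkV
    have e1 : e (Fam.pt F ω) iu - rnd kV (z 0 ω).e =
      -((rnd kV (z 0 ω).e - (z 0 ω).e) + ((z 0 ω).e - e (Fam.pt F ω) iu)) := by ring
    rw [e1, abs_neg]
    refine (abs_add_le _ _).trans ((add_le_add h1 (h2.trans h3)).trans ?_)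
    rw [← add_div]
    exact div_le_div_of_nonneg_right (by norm_num) (by positivity)
  have hkk : ∀ ω, A ω → |(z 1 ω).c + (z 1 ω).s * e (Fam.pt F ω) iu + e (Fam.pt F ω) iN| ≤
      1 / 2 ^ kR := by
    intro ω hω
    refine (h.zc 1 le_rfl ω hω).trans ?_
    rw [div_le_div_iff₀ (by positivity) (by positivity), ← pow_add, one_mul]
    exact pow_le_pow_right₀ (by norm_num) hkR
  have hPF : PF F A (ord i₀ iu iN) (w 0) kV Pu G kR (fun ω => rnd kV (z 0 ω).e) (frs (z 1))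
      (frt (z 1)) (fun u => e u iu) (fun u => n u iu)
      (fun u => (φ1 u).c + (φ1 u).s * e u iu + e u iN) b 8 := by
    refine ⟨ord_bij h.hi, ?_, ?_, ?_, ?_, ?_, ?_, ?_, ?_⟩
    · intro ω ω' e1
      obtain ⟨e3, e4⟩ := hsl ω ω' e1
      refine ⟨?_, ?_, ?_⟩
      · show rnd kV (z 0 ω).e = rnd kV (z 0 ω').e
        rw [e3]
      · show -(z 1 ω).s = -(z 1 ω').s
        rw [e4]
      · show -(z 1 ω).c = -(z 1 ω').c
        rw [e4]
    · intro ω ω' hω hω' e1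
      obtain ⟨e3, e4⟩ := hpp ω ω' hω hω' e1
      refine ⟨?_, ?_, ?_⟩
      · show rnd kV (z 0 ω).e = rnd kV (z 0 ω').e
        rw [e3]
      · show -(z 1 ω).s = -(z 1 ω').s
        rw [e4]
      · show -(z 1 ω).c = -(z 1 ω').c
        rw [e4]
    · intro ω hω
      refine ⟨?_, ?_, ?_⟩
      · have h1 := rnd_near kV (z 0 ω).e
        have h2 := (h.inc 0 (by norm_num) ω hω).e_le
        have h3 : (1 : ℝ) / 2 ^ kV ≤ 1 := by
          rw [div_le_one (by positivity)]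
          exact one_le_pow₀ (by norm_num)
        have h4 := abs_sub_abs_le_abs_sub (rnd kV (z 0 ω).e) (z 0 ω).e
        show |rnd kV (z 0 ω).e| ≤ 8
        linarith
      · show |-(z 1 ω).s| ≤ 4
        rw [abs_neg]
        exact (h.inc 1 le_rfl ω hω).s_le
      · show |-(z 1 ω).c| ≤ 8
        rw [abs_neg]
        exact ((h.inc 1 le_rfl ω hω).c_le).trans (by norm_num)
    · intro ω hω
      have h1 := h.ln ω hω iu
      show |F.d ω iu - e (Fam.pt F ω) iu * F.d ω i₀ - n (Fam.pt F ω) iu| ≤ 8 / 2 ^ Pu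
      refine h1.trans ?_
      exact div_le_div_of_nonneg_right (by norm_num) (by positivity)
    · intro ω hω
      have h1 := hb ω hω
      have e1 : z 1 ω = φ1 (Fam.pt F ω) := hφ1 ω hω
      show |F.d ω iN - -(z 1 ω).s * F.d ω iu - -(z 1 ω).c * F.d ω i₀ - b (Fam.pt F ω) -
        ((φ1 (Fam.pt F ω)).c + (φ1 (Fam.pt F ω)).s * e (Fam.pt F ω) iu + e (Fam.pt F ω) iN) *
          F.d ω i₀| ≤ 8 / 2 ^ G
      rw [← e1]
      have e2 : F.d ω iN - -(z 1 ω).s * F.d ω iu - -(z 1 ω).c * F.d ω i₀ - b (Fam.pt F ω) -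
          ((z 1 ω).c + (z 1 ω).s * e (Fam.pt F ω) iu + e (Fam.pt F ω) iN) * F.d ω i₀ =
          (F.d ω iN - e (Fam.pt F ω) iN * F.d ω i₀) +
            (z 1 ω).s * (F.d ω iu - e (Fam.pt F ω) iu * F.d ω i₀) - b (Fam.pt F ω) := by ring
      rw [e2]
      refine h1.trans ?_
      exact div_le_div_of_nonneg_right (by norm_num) (by positivity)
    · intro ω hω
      exact (h.eb ω hω iu).trans (by norm_num)
    · intro ω hω
      show |e (Fam.pt F ω) iu - rnd kV (z 0 ω).e| ≤ 8 / 2 ^ kV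
      exact (hnear ω hω).trans (div_le_div_of_nonneg_right (by norm_num) (by positivity))
    · intro ω hω
      have e1 : z 1 ω = φ1 (Fam.pt F ω) := hφ1 ω hω
      show |(φ1 (Fam.pt F ω)).c + (φ1 (Fam.pt F ω)).s * e (Fam.pt F ω) iu +
        e (Fam.pt F ω) iN| ≤ 8 / 2 ^ kR
      rw [← e1]
      exact (hkk ω hω).trans (div_le_div_of_nonneg_right (by norm_num) (by positivity))
  refine ⟨_, _, _, _, hPF, fun v ag P2 κ hv hvJ h3 h4 h5 hno => ?_⟩
  rcases hcase with hs | hs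
  · -- the labels are flat
    refine hPF.h6 (by norm_num) (fun ω hω => ?_) hl (kB := 4) hv (by omega) (by norm_num)
      (by omega) (by omega) h3 h4 h5 (hno iu iN h.hi)
    have e1 : z 1 ω = φ1 (Fam.pt F ω) := hφ1 ω hω
    show |-(z 1 ω).c + ((φ1 (Fam.pt F ω)).c + (φ1 (Fam.pt F ω)).s * e (Fam.pt F ω) iu +
      e (Fam.pt F ω) iN)| ≤ 4
    rw [← e1]
    have e2 : -(z 1 ω).c + ((z 1 ω).c + (z 1 ω).s * e (Fam.pt F ω) iu + e (Fam.pt F ω) iN) =
      (z 1 ω).s * e (Fam.pt F ω) iu + e (Fam.pt F ω) iN := by ring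
    rw [e2]
    refine (abs_add_le _ _).trans ?_
    rw [abs_mul]
    have h1 := mul_le_mul (hs ω hω) (h.eb ω hω iu) (abs_nonneg _) (by norm_num)
    have h2 := h.eb ω hω iN
    linarith
  · -- the labels are steep: the other order of the coordinates
    have hi' : ∀ j : Fin 3, j = i₀ ∨ j = iN ∨ j = iu := fun j => by
      rcases h.hi j with h | h | h
      · exact Or.inl h
      · exact Or.inr (Or.inr h)
      · exact Or.inr (Or.inl h)
    have hs0 : ∀ ω, A ω → (0 : ℝ) < |(z 1 ω).s| := fun ω hω => by linarith [hs ω hω]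
    have hdiv : ∀ ω, A ω → ∀ x y : ℝ, |x| ≤ y → |x / (z 1 ω).s| ≤ y := fun ω hω x y hx => by
      rw [abs_div, div_le_iff₀ (hs0 ω hω)]
      have := hs ω hω
      nlinarith [abs_nonneg x]
    have pk : (1 : ℝ) / 2 ^ kR ≤ 1 / 2 ^ kV := div_pow_le (by norm_num) hVR
    have pk2 : (2 : ℝ) ^ kV = 2 ^ (kV - 3) * 8 := by
      have : (2 : ℝ) ^ kV = 2 ^ (kV - 3 + 3) := by
        congr 1
        omega
      rw [this, pow_add]
      norm_num
    have hPF' : PF F A (ord i₀ iN iu) (w 0) (kV - 3) Pu G kR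
        (fun ω => -((z 1 ω).c + (z 1 ω).s * rnd kV (z 0 ω).e)) (fun ω => -(1 / (z 1 ω).s))
        (fun ω => -((z 1 ω).c / (z 1 ω).s)) (fun u => e u iN) (fun u => n u iN)
        (fun u => ((φ1 u).c + (φ1 u).s * e u iu + e u iN) / (φ1 u).s)
        (fun u => b u / (φ1 u).s) 8 := by
      have hnr : ∀ ω, A ω → |e (Fam.pt F ω) iN - -((z 1 ω).c + (z 1 ω).s * rnd kV (z 0 ω).e)| ≤
          21 / 2 ^ kV := by
        intro ω hω
        have h1 := hnear ω hω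
        have h2 := hkk ω hω
        have h4 := (h.inc 1 le_rfl ω hω).s_le
        have e1 : e (Fam.pt F ω) iN - -((z 1 ω).c + (z 1 ω).s * rnd kV (z 0 ω).e) =
          ((z 1 ω).c + (z 1 ω).s * e (Fam.pt F ω) iu + e (Fam.pt F ω) iN) -
            (z 1 ω).s * (e (Fam.pt F ω) iu - rnd kV (z 0 ω).e) := by ring
        rw [e1]
        refine (abs_sub _ _).trans ?_
        rw [abs_mul]
        have h5 := mul_le_mul h4 h1 (abs_nonneg _) (by norm_num)
        have e2 : (21 : ℝ) / 2 ^ kV = 1 / 2 ^ kV + 4 * (5 / 2 ^ kV) := by ring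
        linarith
      refine ⟨ord_bij hi', ?_, ?_, ?_, ?_, ?_, ?_, ?_, ?_⟩
      · intro ω ω' e1
        obtain ⟨e3, e4⟩ := hsl ω ω' e1
        rw [e3, e4]
        exact ⟨rfl, rfl, rfl⟩
      · intro ω ω' hω hω' e1
        obtain ⟨e3, e4⟩ := hpp ω ω' hω hω' e1
        rw [e3, e4]
        exact ⟨rfl, rfl, rfl⟩
      · intro ω hω
        refine ⟨?_, ?_, ?_⟩
        · have h1 := hnr ω hω
          have h2 := h.eb ω hω iN
          have h3 : (21 : ℝ) / 2 ^ kV ≤ 21 / 2 ^ 7 := div_pow_le (by norm_num) hk7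
          have h4 := abs_sub_abs_le_abs_sub (-((z 1 ω).c + (z 1 ω).s * rnd kV (z 0 ω).e))
            (e (Fam.pt F ω) iN)
          rw [abs_sub_comm] at h1
          norm_num at h3
          show |-((z 1 ω).c + (z 1 ω).s * rnd kV (z 0 ω).e)| ≤ 8
          linarith
        · show |-(1 / (z 1 ω).s)| ≤ 4
          rw [abs_neg]
          refine (hdiv ω hω 1 1 (by norm_num)).trans (by norm_num)
        · show |-((z 1 ω).c / (z 1 ω).s)| ≤ 8
          rw [abs_neg]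
          exact (hdiv ω hω _ _ ((h.inc 1 le_rfl ω hω).c_le)).trans (by norm_num)
      · intro ω hω
        have h1 := h.ln ω hω iN
        show |F.d ω iN - e (Fam.pt F ω) iN * F.d ω i₀ - n (Fam.pt F ω) iN| ≤ 8 / 2 ^ Pu
        refine h1.trans ?_
        exact div_le_div_of_nonneg_right (by norm_num) (by positivity)
      · intro ω hω
        have h1 := hb ω hω
        have e1 : z 1 ω = φ1 (Fam.pt F ω) := hφ1 ω hω
        have hne : (z 1 ω).s ≠ 0 := fun h0 => by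
          have := hs0 ω hω
          rw [h0, abs_zero] at this
          exact lt_irrefl _ this
        show |F.d ω iu - -(1 / (z 1 ω).s) * F.d ω iN - -((z 1 ω).c / (z 1 ω).s) * F.d ω i₀ -
          b (Fam.pt F ω) / (φ1 (Fam.pt F ω)).s - ((φ1 (Fam.pt F ω)).c + (φ1 (Fam.pt F ω)).s *
            e (Fam.pt F ω) iu + e (Fam.pt F ω) iN) / (φ1 (Fam.pt F ω)).s * F.d ω i₀| ≤ 8 / 2 ^ G
        rw [← e1]
        have e2 : F.d ω iu - -(1 / (z 1 ω).s) * F.d ω iN - -((z 1 ω).c / (z 1 ω).s) * F.d ω i₀ -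
            b (Fam.pt F ω) / (z 1 ω).s - ((z 1 ω).c + (z 1 ω).s *
              e (Fam.pt F ω) iu + e (Fam.pt F ω) iN) / (z 1 ω).s * F.d ω i₀ =
            ((F.d ω iN - e (Fam.pt F ω) iN * F.d ω i₀) +
              (z 1 ω).s * (F.d ω iu - e (Fam.pt F ω) iu * F.d ω i₀) - b (Fam.pt F ω)) /
              (z 1 ω).s := by
          field_simp
          ring
        rw [e2]
        refine (hdiv ω hω _ _ h1).trans ?_
        exact div_le_div_of_nonneg_right (by norm_num) (by positivity)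
      · intro ω hω
        exact (h.eb ω hω iN).trans (by norm_num)
      · intro ω hω
        refine (hnr ω hω).trans ?_
        rw [pk2, div_le_div_iff₀ (by positivity) (by positivity)]
        have : (0 : ℝ) < 2 ^ (kV - 3) := by positivity
        nlinarith
      · intro ω hω
        have e1 : z 1 ω = φ1 (Fam.pt F ω) := hφ1 ω hω
        rw [← e1]
        refine (hdiv ω hω _ _ (hkk ω hω)).trans ?_
        exact div_le_div_of_nonneg_right (by norm_num) (by positivity)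
    have key := hPF'.h6 (by norm_num) (fun ω hω => by
      have e1 : z 1 ω = φ1 (Fam.pt F ω) := hφ1 ω hω
      rw [← e1]
      have e2 : -((z 1 ω).c / (z 1 ω).s) + ((z 1 ω).c + (z 1 ω).s * e (Fam.pt F ω) iu +
          e (Fam.pt F ω) iN) / (z 1 ω).s = ((z 1 ω).s * e (Fam.pt F ω) iu +
          e (Fam.pt F ω) iN) / (z 1 ω).s := by ring
      rw [e2, abs_div, div_le_iff₀ (hs0 ω hω)]
      refine (abs_add_le _ _).trans ?_
      rw [abs_mul]
      have h1 := h.eb ω hω iu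
      have h2 := h.eb ω hω iN
      have h3 := hs ω hω
      have h4 : |(z 1 ω).s| * |e (Fam.pt F ω) iu| ≤ |(z 1 ω).s| * (5 / 4) :=
        mul_le_mul_of_nonneg_left h1 (abs_nonneg _)
      linarith) hl (v := v) (l2 := 0) (ag := ag) (P2 := P2) (kB := 4) (κ := κ) hv (by omega)
      (by norm_num) (by omega) (by omega) h3 h4 h5 (hno iN iu hi')
    refine le_trans ?_ key
    rw [Pe_eq, Pe_eq]
    refine Finset.sum_le_sum fun x _ => ?_
    have hx0 := cpy_nn hl.nonneg (slam F v) x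
    by_cases h0 : cpy (Pool.Agent.H49.Ent.cond F.p A True) (slam F v) x = 0
    · rw [h0]
      simp
    obtain ⟨k1, k2, k3⟩ := KS6.cpy_pos hl h0
    by_cases h6 : |(fun u => (φ1 u).c + (φ1 u).s * e u iu + e u iN) (Fam.pt F x.1) -
        (fun u => (φ1 u).c + (φ1 u).s * e u iu + e u iN) (Fam.pt F x.2)| ≤ 1 / 2 ^ ag
    swap
    · rw [if_neg h6]
      split_ifs
      · exact hx0
      · exact le_rfl
    rw [if_pos h6, if_pos]
    have hA1 := cond_mem k2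
    have hA2 := cond_mem k3
    have e4 : slam F (w 0) x.1 = slam F (w 0) x.2 := by
      rw [slam_coarse F (w := w 0) (w' := v) hv hvJ x.1,
        slam_coarse F (w := w 0) (w' := v) hv hvJ x.2, k1]
    obtain ⟨-, g2⟩ := hsl _ _ e4
    have f1 : z 1 x.1 = φ1 (Fam.pt F x.1) := hφ1 _ hA1
    have f2 : z 1 x.2 = φ1 (Fam.pt F x.2) := hφ1 _ hA2
    beta_reduce at h6 ⊢
    rw [← f1, ← f2, g2] at h6 ⊢
    rw [← sub_div]
    exact hdiv x.2 hA2 _ _ h6

/-- The direction of the frame is near to the direction of the coarser label. -/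
theorem near_of_nl (h : Pool.S6F.NLc F A i₀ iu iN 1 Pu w V T H e n z) (hkV : kV ≤ V 0)
    (hV1 : V 1 ≤ kV) : ∀ ω, A ω → |rnd kV (z 0 ω).e - fra (z 1) ω| ≤ 9 / 2 ^ V 1 := by
  intro ω hω
  have h1 := rnd_near kV (z 0 ω).e
  have h2 := h.ze 0 (by norm_num) ω hω
  have h3 := h.ze 1 le_rfl ω hω
  have h4 : (4 : ℝ) / 2 ^ V 0 ≤ 4 / 2 ^ V 1 := div_pow_le (by norm_num) (hV1.trans hkV)
  have h5 : (1 : ℝ) / 2 ^ kV ≤ 1 / 2 ^ V 1 := div_pow_le (by norm_num) hV1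
  have e1 : rnd kV (z 0 ω).e - fra (z 1) ω = (rnd kV (z 0 ω).e - (z 0 ω).e) +
    ((z 0 ω).e - e (Fam.pt F ω) iu) - ((z 1 ω).e - e (Fam.pt F ω) iu) := by
    show _ - (z 1 ω).e = _
    ring
  rw [e1]
  refine (abs_sub _ _).trans ((add_le_add (abs_add_le _ _) le_rfl).trans ?_)
  have e2 : (9 : ℝ) / 2 ^ V 1 = 1 / 2 ^ V 1 + 4 / 2 ^ V 1 + 4 / 2 ^ V 1 := by ring
  linarith

/-- The frame is near to the frame of the finer label. -/
theorem fnr_of_nl (h : Pool.S6F.NLc F A i₀ iu iN 1 Pu w V T H e n z)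
    {r U P : ℕ} (h1 : U ≤ r + kV) (h2 : P ≤ U + H 0) (h3 : w 0 + P ≤ r + T 0)
    (h4 : w 1 + P ≤ r + T 1) (h5 : P ≤ r + H 0 + V 0) :
    ∀ ω, A ω → Fnr r U P 6 (fra (z 0) ω) (frs (z 0) ω) (frt (z 0) ω) (rnd kV (z 0 ω).e)
      (frs (z 1) ω) (frt (z 1) ω) := by
  intro ω hω
  have pU : (0 : ℝ) < 2 ^ U := by positivity
  have pP : (0 : ℝ) < 2 ^ P := by positivity
  refine ⟨?_, ?_, ?_⟩
  · refine (rnd_near kV (z 0 ω).e).trans ?_
    rw [div_le_div_iff₀ (by positivity) pU]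
    have h6 : (2 : ℝ) ^ U ≤ 2 ^ r * 2 ^ kV := by
      rw [← pow_add]
      exact pow_le_pow_right₀ (by norm_num) h1
    have h7 : (0 : ℝ) < 2 ^ r * 2 ^ kV := by positivity
    nlinarith
  · show |-(z 1 ω).s - -(z 0 ω).s| ≤ 6 * 2 ^ U / 2 ^ P
    have e1 : -(z 1 ω).s - -(z 0 ω).s = -((z (0 + 1) ω).s - (z 0 ω).s) := by ring
    rw [e1, abs_neg]
    refine (h.zd 0 (by norm_num) ω hω).trans ?_
    rw [div_le_div_iff₀ (by positivity) pP]
    have h6 : (2 : ℝ) ^ P ≤ 2 ^ U * 2 ^ H 0 := by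
      rw [← pow_add]
      exact pow_le_pow_right₀ (by norm_num) h2
    have h7 : (0 : ℝ) < 2 ^ U * 2 ^ H 0 := by positivity
    nlinarith
  · show |(-(z 1 ω).c - -(z 0 ω).c) + (-(z 1 ω).s - -(z 0 ω).s) * (z 0 ω).e| ≤ 6 * 2 ^ r / 2 ^ P
    have a1 := h.zc 0 (by norm_num) ω hω
    have a2 := h.zc 1 le_rfl ω hω
    have a3 := h.zd 0 (by norm_num) ω hω
    have a4 := h.ze 0 (by norm_num) ω hω
    have e1 : (-(z 1 ω).c - -(z 0 ω).c) + (-(z 1 ω).s - -(z 0 ω).s) * (z 0 ω).e =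
      ((z 0 ω).c + (z 0 ω).s * e (Fam.pt F ω) iu + e (Fam.pt F ω) iN) -
      ((z 1 ω).c + (z 1 ω).s * e (Fam.pt F ω) iu + e (Fam.pt F ω) iN) -
      ((z (0 + 1) ω).s - (z 0 ω).s) * ((z 0 ω).e - e (Fam.pt F ω) iu) := by ring
    rw [e1]
    refine (abs_sub _ _).trans ((add_le_add (abs_sub _ _) le_rfl).trans ?_)
    rw [abs_mul]
    have b1 : (2 : ℝ) ^ w 0 / 2 ^ T 0 ≤ 2 ^ r / 2 ^ P := by
      rw [div_le_div_iff₀ (by positivity) pP, ← pow_add, ← pow_add]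
      exact pow_le_pow_right₀ (by norm_num) h3
    have b2 : (2 : ℝ) ^ w 1 / 2 ^ T 1 ≤ 2 ^ r / 2 ^ P := by
      rw [div_le_div_iff₀ (by positivity) pP, ← pow_add, ← pow_add]
      exact pow_le_pow_right₀ (by norm_num) h4
    have b3 : |(z (0 + 1) ω).s - (z 0 ω).s| * |(z 0 ω).e - e (Fam.pt F ω) iu| ≤
        1 / 2 ^ H 0 * (4 / 2 ^ V 0) := mul_le_mul a3 a4 (abs_nonneg _) (by positivity)
    have b4 : (1 : ℝ) / 2 ^ H 0 * (4 / 2 ^ V 0) ≤ 4 * (2 ^ r / 2 ^ P) := by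
      have e2 : (1 : ℝ) / 2 ^ H 0 * (4 / 2 ^ V 0) = 4 * (1 / (2 ^ H 0 * 2 ^ V 0)) := by
        field_simp
      rw [e2]
      refine mul_le_mul_of_nonneg_left ?_ (by norm_num)
      rw [div_le_div_iff₀ (by positivity) pP, one_mul, ← pow_add, ← pow_add]
      exact pow_le_pow_right₀ (by norm_num) (by omega)
    have e3 : 6 * (2 : ℝ) ^ r / 2 ^ P = 2 ^ r / 2 ^ P + 2 ^ r / 2 ^ P + 4 * (2 ^ r / 2 ^ P) := by
      ring
    linarith

end two

end Pool.RPL
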