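import Pool.Agent.H49.S6R.Rin
import Pool.Agent.H49.S6R.Nlf
import Pool.Agent.H23.S6E.Ld1

/-!
# The plateau of the thickness: the data of one family, from natural labels
-/

set_option autoImplicit false

namespace Pool.RPL

open Finset Real
open Pool.Agent.H49.Ent Pool.Agent.H32.Dense Pool.STK Pool.KA Pool.KSAT Pool.K2S Pool.PB
  Pool.KS6 Pool.S6C Pool.KA.Vd

variable {J : ℕ}

/-- The label of the coarser window is a side label of the finer window. -/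
theorem sl_of_nl {F : Fam 3 J} {A : F.Ω → Prop} {i₀ iu iN : Fin 3} {N Pu : ℕ}
    {w V T H : ℕ → ℕ} {e n : (Fin 3 → ℤ) × (ℕ × F.ζ) → Fin 3 → ℝ} {z : ℕ → F.Ω → Pln}
    (h : Pool.S6F.NLc F A i₀ iu iN N Pu w V T H e n z) {i j : ℕ} (hi : i ≤ N) (hw : w i ≤ w j)
    (hJ : w j ≤ J) : SL F A (w j) (z i) := by
  obtain ⟨φ, hφ⟩ := h.zp i hi
  obtain ⟨ψ, hψ⟩ := h.zs i hi
  refine ⟨fun ω ω' hω hω' e1 => ?_, fun ω ω' _ _ e1 => ?_⟩
  · rw [hφ ω hω, hφ ω' hω']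
    exact congrArg φ e1
  · rw [hψ ω, hψ ω', slam_coarse F (w := w i) (w' := w j) hw hJ ω,
      slam_coarse F (w := w i) (w' := w j) hw hJ ω', e1]

/-- **The data of one family, from natural labels.** -/
theorem rin_of_nl {F : Fam 3 J} {A : F.Ω → Prop} {i₀ iu iN : Fin 3}
    {N M T X m' δ kV kR Pu G r₀ d : ℕ} {wv V Tv H w P2 : ℕ → ℕ}
    {e n : (Fin 3 → ℤ) × (ℕ × F.ζ) → Fin 3 → ℝ} {z : ℕ → F.Ω → Pln}
    {c ca x₀ lm κ ϖ ε β e₀ e₁ e₂ : ℝ}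
    (h : Pool.S6F.NLc F A i₀ iu iN 1 Pu wv V Tv H e n z)
    (hS : Pool.S6F.SnG F A i₀ iu iN G e (z 1))
    (hcase : (∀ ω, A ω → |(z 1 ω).s| ≤ 2) ∨ ∀ ω, A ω → 2 ≤ |(z 1 ω).s|) (hA : 0 < Pe F.p A)
    (hX : 0 < X) (hM : 0 < M) (hm : 0 < m') (hVR : kV + δ ≤ kR) (hk7 : 7 ≤ kV)
    (hV0 : kV ≤ V 0) (hV1 : V 1 ≤ kV) (hT1 : wv 1 + kR ≤ Tv 1) (hT0 : wv 0 + kR ≤ Tv 0)
    (hw10 : wv 1 ≤ wv 0) (hH : kR + X ≤ kV + δ + H 0) (hd : kV ≤ V 1 + X + d)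
    (hw0 : w 0 ≤ r₀) (hwc : wv 0 ≤ w N)
    (hstep : ∀ j < N, w (j + 1) + X ≤ w j)
    (htop : r₀ + kR + (T * M + M + 1) * X ≤ J)
    (hPu : r₀ + kV + (T * M + M) * X ≤ Pu + w N)
    (hPN : r₀ + kR + (T * M + M + 1) * X ≤ G + w N)
    (htime : (J : ℝ) * Real.log 2 - lm * X ≤
      CH (Pool.Agent.H49.Ent.cond F.p A True) F.T (fun ω => (F.l ω, F.Z ω)))
    (hvis : Pool.UST.visC 8 8 ≤ lm * X)
    (hact : ∀ j < N, ∀ k < T * M, ∀ n X' : ℕ, κ * X ≤ X' → n + X' ≤ X → ∀ E : F.Ω → Prop,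
      Sub E A → ϖ * Pe F.p A ≤ Pe F.p E → ca * X' * Real.log 2 ≤
        CH (Pool.Agent.H49.Ent.cond F.p E True)
          (fun ω => F.D (r₀ + k * X - w j + n + X') ω i₀)
          (fun ω => (F.D (r₀ + k * X - w j + n) ω i₀, Fam.pt F ω)))
    (hrate : ∀ k < T * M, CH (Pool.Agent.H49.Ent.cond F.p A True) (F.X (r₀ + kR + k * X + X))
      (fun ω => (F.X (r₀ + kR + k * X) ω, F.W ω)) ≤ (3 - c) * X * Real.log 2 + e₀)
    (hvdl : ∀ k < T * M, F.vdf (Pool.Agent.H49.Ent.cond F.p A True) (ord i₀ iu iN)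
      (r₀ + k * X + X) (r₀ + kV + k * X) (r₀ + kR + k * X + X) (fra (z 1)) (frs (z 1)) (frt (z 1))
      (fun ω => ((), (z 1 ω, F.W ω))) ≤ e₁)
    (hvdc : ∀ k < T * M, F.vdf (Pool.Agent.H49.Ent.cond F.p A True) (ord i₀ iu iN)
      (r₀ + k * X + X + δ) (r₀ + kV + k * X + δ) (r₀ + kR + k * X + X) (fra (z 0)) (frs (z 0))
      (frt (z 0)) (fun ω => (z 1 ω, (z 0 ω, F.W ω))) ≤ e₂)
    (hδ : δ ≤ m' * X)
    (hh : m' * (((kV : ℝ) - V 1) * Real.log 2 + Real.log (5 * 9)) < T * β)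
    (hsum : e₀ + e₁ + e₂ + β + cst 8 (9 * 2 ^ d) ≤ c / 2 * X * Real.log 2)
    (hε : 0 < ε) (hx₀ : 0 < x₀)
    (hP2 : ∀ j < N, P2 j ≤ w j + (kR + ⌊x₀ * X⌋₊) ∧ P2 j ≤ w j + G ∧ P2 j ≤ J)
    (hno : ∀ j < N, ∀ iu' iN' : Fin 3, (∀ j : Fin 3, j = i₀ ∨ j = iu' ∨ j = iN') →
      ∀ B' : F.Ω → Prop, Sub B' A →
      Real.exp (-(-Real.log ε + KS6.KC (8 + 9))) * Pe F.p A ≤ Pe F.p B' →
      ¬ KS6.LABq F J i₀ iu' iN' (w j) 0 (P2 j) 2 B') :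
    ∃ (sg : Fin 3 → Fin 3) (k₀ : ℕ) (a s t : F.Ω → ℝ)
      (kk bb : (Fin 3 → ℤ) × (ℕ × F.ζ) → ℝ), RIn F A sg N M X w (r₀ + k₀ * X)
      (r₀ + kV + k₀ * X) (r₀ + kR + k₀ * X) a s t kk bb 8 (c / 2) ca x₀ lm κ ϖ ε := by
  have hl := isLaw_cond F.isLaw hA
  have hwN : w N ≤ w 0 := win_le hstep (Nat.zero_le N) le_rfl
  have hp0 : r₀ + kR ≤ J := (Nat.le_add_right _ _).trans htop
  have hwcJ : wv 0 ≤ J := by omega
  obtain ⟨al, nu, kk, bb, hPF, h6⟩ := pf_of_nl (kV := kV) (kR := kR) h hS hV0 hT1 hw10 hwcJ hk7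
    (by omega) hcase hl
  have hmem : ∀ ω, 0 < Pool.Agent.H49.Ent.cond F.p A True ω → A ω := fun ω hω => cond_mem hω
  have hz0 := nl_nat h (j := 0) (by norm_num) (V' := 0) (T' := 0) (Nat.zero_le _) (Nat.zero_le _)
  have hD1 : (1 : ℝ) ≤ 9 * 2 ^ d := by
    have : (1 : ℝ) ≤ 2 ^ d := one_le_pow₀ (by norm_num)
    linarith
  have hnear := near_of_nl h hV0 hV1
  obtain ⟨k₀, hk₀⟩ := exists_rin (T := T) (m' := m') (δ := δ) (Vl := V 1) (r₀ := r₀) (c := c)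
    (ca := ca) (x₀ := x₀) (lm := lm) (κ := κ) (ϖ := ϖ) (ε := ε) (D := 9 * 2 ^ d) (β := β)
    (e₀ := e₀) (e₁ := e₁) (e₂ := e₂) (el := fra (z 1)) (ec := fra (z 0)) (sc := frs (z 0))
    (tc := frt (z 0)) (Θ := fun ω => ((), (z 1 ω, F.W ω)))
    (Ξ := fun ω => (z 1 ω, (z 0 ω, F.W ω))) hPF hA hX hM hm hVR hw0 hwc hstep htop hPu hPN htime
    hvis hact hrate hvdl hvdc (fun ω ω' _ _ e1 => (Prod.ext_iff.mp (Prod.ext_iff.mp e1).2).2)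
    (fun ω ω' _ _ e1 => by
      have e2 : z 1 ω = z 1 ω' := (Prod.ext_iff.mp (Prod.ext_iff.mp e1).2).1
      show (fra (z 1) ω, frs (z 1) ω, frt (z 1) ω) = (fra (z 1) ω', frs (z 1) ω', frt (z 1) ω')
      unfold fra frs frt
      rw [e2])
    (fun ω ω' _ _ e1 => by
      have e2 : z 1 ω = z 1 ω' := (Prod.ext_iff.mp e1).1
      have e3 : F.W ω = F.W ω' := (Prod.ext_iff.mp (Prod.ext_iff.mp e1).2).2
      show ((), (z 1 ω, F.W ω)) = ((), (z 1 ω', F.W ω'))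
      rw [e2, e3])
    (fun ω ω' _ _ e1 => by
      have e2 : z 0 ω = z 0 ω' := (Prod.ext_iff.mp (Prod.ext_iff.mp e1).2).1
      show (fra (z 0) ω, frs (z 0) ω, frt (z 0) ω) = (fra (z 0) ω', frs (z 0) ω', frt (z 0) ω')
      unfold fra frs frt
      rw [e2])
    (fun ω ω' _ _ e1 => by
      have e2 : z 0 ω = z 0 ω' := (Prod.ext_iff.mp (Prod.ext_iff.mp e1).2).1
      show rnd kV (z 0 ω).e = rnd kV (z 0 ω').e
      rw [e2])
    (fun ω hω => ((h.inc 1 le_rfl ω hω).e_le).trans (by norm_num))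
    (fun ω hω => NL.bd hz0 hω) hD1
    (fun ω hω => by
      refine (hnear ω hω).trans ?_
      rw [div_le_div_iff₀ (by positivity) (by positivity)]
      have e1 : (9 : ℝ) * 2 ^ d * 2 ^ X * 2 ^ V 1 = 9 * 2 ^ (V 1 + X + d) := by
        rw [pow_add, pow_add]
        ring
      rw [e1]
      refine mul_le_mul_of_nonneg_left ?_ (by norm_num)
      exact pow_le_pow_right₀ (by norm_num) hd)
    (fun k hk ω hω => by
      have key := fnr_of_nl (kV := kV) (r := r₀ + k * X + X + δ) (U := r₀ + kV + k * X + δ)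
        (P := r₀ + kR + k * X + X) h (by omega) (by omega) (by omega) (by omega) (by omega) ω hω
      obtain ⟨f1, f2, f3⟩ := key
      have hD6 : (6 : ℝ) ≤ 9 * 2 ^ d := by
        have : (1 : ℝ) ≤ 2 ^ d := one_le_pow₀ (by norm_num)
        linarith
      have hmul : ∀ r P : ℕ, (6 : ℝ) * 2 ^ r / 2 ^ P ≤ 9 * 2 ^ d * 2 ^ r / 2 ^ P := fun r P => by
        refine div_le_div_of_nonneg_right ?_ (by positivity)
        exact mul_le_mul_of_nonneg_right hD6 (by positivity)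
      exact ⟨f1.trans (hmul _ _), f2.trans (hmul _ _), f3.trans (hmul _ _)⟩)
    hδ (fun ω => rnd_grid kV (z 0 ω).e) hV1 hnear hh hsum hx₀
    (fun j hj => by
      have h1 : w N ≤ w j := win_le hstep hj.le le_rfl
      have h2 : w j ≤ w 0 := win_le hstep (Nat.zero_le j) hj.le
      obtain ⟨p1, p2, p3⟩ := hP2 j hj
      have key := h6 (w j) (kR + ⌊x₀ * X⌋₊) (P2 j) (-Real.log ε) (hwc.trans h1) (by omega) p1 p2
        p3 (hno j hj)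
      rw [neg_neg, Real.exp_log hε] at key
      exact key)
  exact ⟨_, k₀, _, _, _, _, _, hk₀⟩

end Pool.RPL
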