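import Pool.Agent.H45.RPL.Stmt
import Pool.Agent.H2.UST.Vis
import Pool.Agent.H9.S6.H7R

/-!
# The plateau of the thickness: one frame

`PF`: one frame `(a, s, t)`, a function of the windows `wc` and of the exact points; at the exact
points the velocities are straight. The contexts are visible, and the normal turns on the line.
-/

set_option autoImplicit false

namespace Pool.RPL

open Finset Real
open Pool.Agent.H49.Ent Pool.Agent.H32.Dense Pool.STK Pool.KA Pool.KSAT Pool.K2S Pool.PB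

variable {J : ℕ}

/-- One frame: `V` digits of the direction, `K` digits of the normal; the straightness is `Pu` in
the direction of the fans, and `PN` in the direction of the normal. -/
structure PF (F : Fam 3 J) (A : F.Ω → Prop) (σ : Fin 3 → Fin 3) (wc V Pu PN K : ℕ)
    (a s t : F.Ω → ℝ) (al nu kk bb : (Fin 3 → ℤ) × (ℕ × F.ζ) → ℝ) (B : ℝ) : Prop where
  bij : Function.Bijective σ
  slm : ∀ ω ω', slam F wc ω = slam F wc ω' → a ω = a ω' ∧ s ω = s ω' ∧ t ω = t ω'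
  pts : ∀ ω ω', A ω → A ω' → Fam.pt F ω = Fam.pt F ω' → a ω = a ω' ∧ s ω = s ω' ∧ t ω = t ω'
  bd : ∀ ω, A ω → |a ω| ≤ B ∧ |s ω| ≤ 4 ∧ |t ω| ≤ B
  on1 : ∀ ω, A ω → |F.d ω (σ 1) - al (Fam.pt F ω) * F.d ω (σ 0) - nu (Fam.pt F ω)| ≤ B / 2 ^ Pu
  on2 : ∀ ω, A ω → |F.d ω (σ 2) - s ω * F.d ω (σ 1) - t ω * F.d ω (σ 0) - bb (Fam.pt F ω) -
    kk (Fam.pt F ω) * F.d ω (σ 0)| ≤ B / 2 ^ PN
  bal : ∀ ω, A ω → |al (Fam.pt F ω)| ≤ 2
  near : ∀ ω, A ω → |al (Fam.pt F ω) - a ω| ≤ B / 2 ^ V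
  kle : ∀ ω, A ω → |kk (Fam.pt F ω)| ≤ B / 2 ^ K

section PF

variable {F : Fam 3 J} {A : F.Ω → Prop} {σ : Fin 3 → Fin 3} {wc V Pu PN K : ℕ}
  {a s t : F.Ω → ℝ} {al nu kk bb : (Fin 3 → ℤ) × (ℕ × F.ζ) → ℝ} {B : ℝ}

theorem PF.sub (h : PF F A σ wc V Pu PN K a s t al nu kk bb B) {A' : F.Ω → Prop}
    (hA : Sub A' A) : PF F A' σ wc V Pu PN K a s t al nu kk bb B :=
  ⟨h.bij, h.slm, fun ω ω' x y => h.pts ω ω' (hA ω x) (hA ω' y), fun ω hω => h.bd ω (hA ω hω),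
    fun ω hω => h.on1 ω (hA ω hω), fun ω hω => h.on2 ω (hA ω hω), fun ω hω => h.bal ω (hA ω hω),
    fun ω hω => h.near ω (hA ω hω), fun ω hω => h.kle ω (hA ω hω)⟩

theorem cond_mem {ω : F.Ω} (hω : 0 < Pool.Agent.H49.Ent.cond F.p A True ω) : A ω := by
  have := ((cond_pos_iff F.isLaw.nonneg A True ω).1 hω).2
  simpa using this

theorem div_pow_le {B : ℝ} (hB : 0 ≤ B) {m n : ℕ} (h : m ≤ n) : B / (2 : ℝ) ^ n ≤ B / 2 ^ m :=
  div_le_div_of_nonneg_left hB (by positivity) (pow_le_pow_right₀ (by norm_num) h)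

/-- **(vis)** -/
theorem PF.vis (h : PF F A σ wc V Pu PN K a s t al nu kk bb B) (hB : 4 ≤ B) {w q U P : ℕ}
    (hw : wc ≤ w) (wU : w ≤ U) (wP : w ≤ P) (qJ : w + q ≤ J) (UJ : U ≤ J) (PJ : P ≤ J)
    (h1 : U - w ≤ Pu) (h2 : P - w ≤ PN) (h3 : U - w - q ≤ V) (h4 : P - w - q ≤ K)
    (hP : 0 < Pe F.p A) :
    CH (Pool.Agent.H49.Ent.cond F.p A True) (F.ctx σ w (w + q) U P a s t)
      (fun ω => (F.D q ω (σ 0), Fam.pt F ω)) ≤ Pool.UST.visC B B := by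
  have hB0 : (0 : ℝ) ≤ B := by linarith
  have hV : Pool.UST.VOK F A σ w q U P al nu kk bb a s t B B 0 := by
    refine ⟨wU, wP, qJ, UJ, PJ, fun ω hω => (h.on1 ω hω).trans (div_pow_le hB0 h1),
      fun ω hω => (h.on2 ω hω).trans (div_pow_le hB0 h2), fun ω hω => (h.bal ω hω).trans
      (by linarith), fun ω hω => ⟨(h.bd ω hω).1, (h.bd ω hω).2.1.trans (by linarith),
      (h.bd ω hω).2.2⟩, fun ω hω => (h.near ω hω).trans (div_pow_le hB0 h3),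
      fun ω hω => (h.kle ω hω).trans (div_pow_le hB0 h4), ?_, ?_⟩
    · intro ω ω' _ _ e
      have e1 := Prod.ext_iff.mp e
      have e2 := Prod.ext_iff.mp e1.2
      have e3 : slam F w ω = slam F w ω' := Prod.ext e1.1 (Prod.ext e2.2 e2.1)
      have e4 : slam F wc ω = slam F wc ω' := by
        rw [slam_coarse F (w := wc) (w' := w) hw (by omega) ω,
          slam_coarse F (w := wc) (w' := w) hw (by omega) ω', e3]
      obtain ⟨k1, k2, k3⟩ := h.slm ω ω' e4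
      exact Prod.ext k1 (Prod.ext k2 k3)
    · intro B' hB' hB0'
      refine le_of_eq (CH_eq_zero (isLaw_cond F.isLaw hB0').nonneg ?_)
      intro ω ω' hω hω' e
      have e1 : Fam.pt F ω = Fam.pt F ω' := (Prod.ext_iff.mp e).1
      obtain ⟨k1, k2, k3⟩ := h.pts ω ω' (hB' ω (cond_mem hω)) (hB' ω' (cond_mem hω')) e1
      exact Prod.ext k1 (Prod.ext k2 k3)
  have k1 := hV.ctx_vis A (fun _ h => h) hP
  rw [zero_add] at k1
  refine le_trans (le_of_eq ?_) k1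
  refine CH_congr (isLaw_cond F.isLaw hP).nonneg (fun _ _ _ _ e => (Prod.ext_iff.mp e).1)
    (fun _ _ _ _ e => (Prod.ext_iff.mp e).1) ?_ ?_
  · intro ω ω' _ _ e
    have e1 := Prod.ext_iff.mp e
    exact Prod.ext e1.2 e1.1
  · intro ω ω' _ _ e
    have e1 := Prod.ext_iff.mp e
    exact Prod.ext e1.2 e1.1

/-- The plane of the directions at the exact point. -/
noncomputable def dpl (F : Fam 3 J) (σ : Fin 3 → Fin 3)
    (f : (Fin 3 → ℤ) × (ℕ × F.ζ) → ℝ × ℝ × ℝ) (al nu kk bb : (Fin 3 → ℤ) × (ℕ × F.ζ) → ℝ)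
    (u : (Fin 3 → ℤ) × (ℕ × F.ζ)) : KS6.Pln where
  e := al u
  c := -((f u).2.2 + kk u)
  s := -(f u).2.1
  xb := fun i => (u.1 i : ℝ) / 2 ^ J - (u.2.1 : ℝ) / 2 ^ J *
    KS6.bp (σ 0) (σ 1) (al u) (-((f u).2.2 + kk u)) (-(f u).2.1) 0 (nu u) (bb u) i
  db := KS6.bp (σ 0) (σ 1) (al u) (-((f u).2.2 + kk u)) (-(f u).2.1) 0 (nu u) (bb u)

/-- **(h6)** -/
theorem PF.h6 (h : PF F A σ wc V Pu PN K a s t al nu kk bb B) (hB : 4 ≤ B)
    (hbt : ∀ ω, A ω → |t ω + kk (Fam.pt F ω)| ≤ 4)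
    (hl : IsLaw (Pool.Agent.H49.Ent.cond F.p A True)) {v l2 ag P2 kB : ℕ} {κ : ℝ} (hv : wc ≤ v)
    (hvJ : v + l2 ≤ J) (hkB : 2 * B ≤ 2 ^ kB) (h1 : l2 + kB ≤ V) (h2 : l2 ≤ Pu)
    (h3 : P2 ≤ v + ag) (h4 : P2 ≤ v + PN) (h5 : P2 ≤ J)
    (hno : ∀ B' : F.Ω → Prop, Sub B' A →
      Real.exp (-(κ + KS6.KC (B + 9))) * Pe F.p A ≤ Pe F.p B' →
      ¬ KS6.LABq F J (σ 0) (σ 1) (σ 2) v l2 P2 2 B') :
    Pe (cpy (Pool.Agent.H49.Ent.cond F.p A True) (slam F v))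
      (fun x => |kk (Fam.pt F x.1) - kk (Fam.pt F x.2)| ≤ 1 / 2 ^ ag) ≤ Real.exp (-κ) := by
  classical
  have hB0 : (0 : ℝ) ≤ B := by linarith
  have hi : ∀ j : Fin 3, j = σ 0 ∨ j = σ 1 ∨ j = σ 2 := by
    intro j
    obtain ⟨i, hi⟩ := h.bij.2 j
    rw [← hi]
    fin_cases i
    · exact Or.inl rfl
    · exact Or.inr (Or.inl rfl)
    · exact Or.inr (Or.inr rfl)
  obtain ⟨n1, n2, n3⟩ := KS6.three hi
  obtain ⟨f, hf⟩ : ∃ f : (Fin 3 → ℤ) × (ℕ × F.ζ) → ℝ × ℝ × ℝ, ∀ ω, A ω →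
      f (Fam.pt F ω) = (a ω, s ω, t ω) := by
    refine ⟨fun u => if hu : ∃ ω, A ω ∧ Fam.pt F ω = u then
      (a hu.choose, s hu.choose, t hu.choose) else 0, fun ω hω => ?_⟩
    have hu : ∃ ω', A ω' ∧ Fam.pt F ω' = Fam.pt F ω := ⟨ω, hω, rfl⟩
    show (if hu : ∃ ω', A ω' ∧ Fam.pt F ω' = Fam.pt F ω then
      (a hu.choose, s hu.choose, t hu.choose) else 0) = _
    rw [dif_pos hu]
    obtain ⟨k1, k2, k3⟩ := h.pts _ _ hu.choose_spec.1 hω hu.choose_spec.2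
    rw [k1, k2, k3]
  have hJ0 : (0 : ℝ) < 2 ^ J := by positivity
  have hI : ∀ ω, A ω → KS6.Inc (σ 0) (σ 1) (σ 2) v l2 P2 (B + 9)
      (dpl F σ f al nu kk bb (Fam.pt F ω)) (F.t ω) (F.x ω) (F.d ω) := by
    intro ω hω
    have ef := hf ω hω
    have ef1 : (f (Fam.pt F ω)).2.1 = s ω := by rw [ef]
    have ef2 : (f (Fam.pt F ω)).2.2 = t ω := by rw [ef]
    have b1 := h.bal ω hω
    have b2 := h.bd ω hω
    have b3 := hbt ω hω
    have hx : ∀ i, |F.x ω i - (F.X J ω i : ℝ) / 2 ^ J| ≤ 1 / 2 ^ J := fun i =>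
      KS6.floor_near J (F.x ω i)
    have hpos : ∀ i, (fun i => (dpl F σ f al nu kk bb (Fam.pt F ω)).xb i +
        F.t ω * (dpl F σ f al nu kk bb (Fam.pt F ω)).db i) i = (F.X J ω i : ℝ) / 2 ^ J := by
      intro i
      simp only [dpl]
      have : (((Fam.pt F ω).2.1 : ℕ) : ℝ) / 2 ^ J = F.t ω := rfl
      rw [this]
      have : (((Fam.pt F ω).1 i : ℤ) : ℝ) = (F.X J ω i : ℝ) := rfl
      rw [this]
      ring
    have hposf : (fun i => (dpl F σ f al nu kk bb (Fam.pt F ω)).xb i +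
        F.t ω * (dpl F σ f al nu kk bb (Fam.pt F ω)).db i) = fun i => (F.X J ω i : ℝ) / 2 ^ J :=
      funext hpos
    have hJv : (1 : ℝ) / 2 ^ J ≤ 1 / 2 ^ v := div_pow_le zero_le_one (by omega)
    have hJvl : (1 : ℝ) / 2 ^ J ≤ 1 / 2 ^ (v + l2) := div_pow_le zero_le_one hvJ
    have hJP : (1 : ℝ) / 2 ^ J ≤ 1 / 2 ^ P2 := div_pow_le zero_le_one h5
    have pv : (0 : ℝ) < 2 ^ v := by positivity
    have pl : (0 : ℝ) < 2 ^ l2 := by positivity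
    have pP : (0 : ℝ) < 2 ^ P2 := by positivity
    refine ⟨b1, ?_, ?_, ?_, ?_, ?_, ?_, ?_, ?_⟩
    · show |-((f (Fam.pt F ω)).2.2 + kk (Fam.pt F ω))| ≤ 4
      rw [abs_neg, ef2]
      exact b3
    · show |-(f (Fam.pt F ω)).2.1| ≤ 4
      rw [abs_neg, ef1]
      exact b2.2.1
    · have e1 := hpos (σ 0)
      have e2 : F.x ω (σ 0) - ((dpl F σ f al nu kk bb (Fam.pt F ω)).xb (σ 0) +
        F.t ω * (dpl F σ f al nu kk bb (Fam.pt F ω)).db (σ 0)) =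
        F.x ω (σ 0) - (F.X J ω (σ 0) : ℝ) / 2 ^ J := by
        rw [← e1]
      rw [e2]
      refine (hx _).trans (hJv.trans ?_)
      exact div_le_div_of_nonneg_right (by linarith) pv.le
    · rw [hposf]
      show |KS6.fu (σ 0) (σ 1) (al (Fam.pt F ω)) (F.x ω) -
        KS6.fu (σ 0) (σ 1) (al (Fam.pt F ω)) fun i => (F.X J ω i : ℝ) / 2 ^ J| ≤ _
      have e1 : KS6.fu (σ 0) (σ 1) (al (Fam.pt F ω)) (F.x ω) -
          (KS6.fu (σ 0) (σ 1) (al (Fam.pt F ω)) fun i => (F.X J ω i : ℝ) / 2 ^ J) =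
          (F.x ω (σ 1) - (F.X J ω (σ 1) : ℝ) / 2 ^ J) -
            al (Fam.pt F ω) * (F.x ω (σ 0) - (F.X J ω (σ 0) : ℝ) / 2 ^ J) := by
        unfold KS6.fu
        ring
      rw [e1]
      refine (abs_sub _ _).trans ?_
      rw [abs_mul]
      have m1 : |al (Fam.pt F ω)| * |F.x ω (σ 0) - (F.X J ω (σ 0) : ℝ) / 2 ^ J| ≤
          2 * (1 / 2 ^ J) := mul_le_mul b1 (hx _) (abs_nonneg _) (by norm_num)
      have m2 := hx (σ 1)
      have m3 : (B + 9) / 2 ^ (v + l2) = (B + 9) * (1 / 2 ^ (v + l2)) := by ring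
      rw [m3]
      have p0 : (0 : ℝ) < 1 / 2 ^ (v + l2) := by positivity
      nlinarith
    · rw [hposf]
      show |KS6.fn (σ 0) (σ 1) (σ 2) (-((f (Fam.pt F ω)).2.2 + kk (Fam.pt F ω)))
        (-(f (Fam.pt F ω)).2.1) (F.x ω) - KS6.fn (σ 0) (σ 1) (σ 2)
        (-((f (Fam.pt F ω)).2.2 + kk (Fam.pt F ω))) (-(f (Fam.pt F ω)).2.1)
        fun i => (F.X J ω i : ℝ) / 2 ^ J| ≤ _
      rw [ef1, ef2]
      have e1 : KS6.fn (σ 0) (σ 1) (σ 2) (-(t ω + kk (Fam.pt F ω))) (-s ω) (F.x ω) -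
          (KS6.fn (σ 0) (σ 1) (σ 2) (-(t ω + kk (Fam.pt F ω))) (-s ω)
          fun i => (F.X J ω i : ℝ) / 2 ^ J) =
          (F.x ω (σ 2) - (F.X J ω (σ 2) : ℝ) / 2 ^ J) -
            (t ω + kk (Fam.pt F ω)) * (F.x ω (σ 0) - (F.X J ω (σ 0) : ℝ) / 2 ^ J) -
            s ω * (F.x ω (σ 1) - (F.X J ω (σ 1) : ℝ) / 2 ^ J) := by
        unfold KS6.fn
        ring
      rw [e1]
      refine (abs_sub _ _).trans ((add_le_add (abs_sub _ _) le_rfl).trans ?_)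
      rw [abs_mul, abs_mul]
      have m1 : |t ω + kk (Fam.pt F ω)| * |F.x ω (σ 0) - (F.X J ω (σ 0) : ℝ) / 2 ^ J| ≤
          4 * (1 / 2 ^ J) := mul_le_mul b3 (hx _) (abs_nonneg _) (by norm_num)
      have m2 : |s ω| * |F.x ω (σ 1) - (F.X J ω (σ 1) : ℝ) / 2 ^ J| ≤
          4 * (1 / 2 ^ J) := mul_le_mul b2.2.1 (hx _) (abs_nonneg _) (by norm_num)
      have m3 := hx (σ 2)
      have m4 : (B + 9) / 2 ^ P2 = (B + 9) * (1 / 2 ^ P2) := by ring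
      rw [m4]
      have p0 : (0 : ℝ) < 1 / 2 ^ P2 := by positivity
      nlinarith
    · show |F.d ω (σ 0) - KS6.bp _ _ _ _ _ _ _ _ (σ 0)| ≤ _
      rw [KS6.bp_i0, sub_zero]
      exact (F.dir ω _).trans (by linarith)
    · show |KS6.fu (σ 0) (σ 1) (al (Fam.pt F ω)) (F.d ω) -
        KS6.fu (σ 0) (σ 1) (al (Fam.pt F ω)) (KS6.bp (σ 0) (σ 1) (al (Fam.pt F ω)) _ _ _ _ _)| ≤ _
      rw [KS6.bp_fu n1]
      have e1 : KS6.fu (σ 0) (σ 1) (al (Fam.pt F ω)) (F.d ω) - nu (Fam.pt F ω) =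
          F.d ω (σ 1) - al (Fam.pt F ω) * F.d ω (σ 0) - nu (Fam.pt F ω) := rfl
      rw [e1]
      refine (h.on1 ω hω).trans ((div_pow_le hB0 h2).trans ?_)
      exact div_le_div_of_nonneg_right (by linarith) pl.le
    · show |KS6.fn (σ 0) (σ 1) (σ 2) (-((f (Fam.pt F ω)).2.2 + kk (Fam.pt F ω)))
        (-(f (Fam.pt F ω)).2.1) (F.d ω) - KS6.fn (σ 0) (σ 1) (σ 2)
        (-((f (Fam.pt F ω)).2.2 + kk (Fam.pt F ω))) (-(f (Fam.pt F ω)).2.1)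
        (KS6.bp (σ 0) (σ 1) (al (Fam.pt F ω)) (-((f (Fam.pt F ω)).2.2 + kk (Fam.pt F ω)))
          (-(f (Fam.pt F ω)).2.1) _ _ _)| ≤ _
      rw [KS6.bp_fn n1 n2 n3, ef1, ef2]
      have e1 : KS6.fn (σ 0) (σ 1) (σ 2) (-(t ω + kk (Fam.pt F ω))) (-s ω) (F.d ω) -
          bb (Fam.pt F ω) = F.d ω (σ 2) - s ω * F.d ω (σ 1) - t ω * F.d ω (σ 0) -
            bb (Fam.pt F ω) - kk (Fam.pt F ω) * F.d ω (σ 0) := by
        unfold KS6.fn
        ring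
      rw [e1]
      refine (h.on2 ω hω).trans ?_
      rw [div_le_div_iff₀ (by positivity) pP]
      have e2 : (2 : ℝ) ^ P2 ≤ 2 ^ v * 2 ^ PN := by
        rw [← pow_add]
        exact pow_le_pow_right₀ (by norm_num) h4
      calc B * 2 ^ P2 ≤ (B + 9) * (2 ^ v * 2 ^ PN) :=
            mul_le_mul (by linarith) e2 pP.le (by linarith)
        _ = _ := by ring
  have key := KS6.h6r F (le_refl J) hi (v := v) (W := v) (lam := l2) (P := P2) (l2 := l2)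
    (sg := ag) (ag := ag) (P2 := P2) (C := B + 9) (κ := κ) (by linarith) hl hI
    (φ := dpl F σ f al nu kk bb) (fun _ _ => rfl) le_rfl hvJ (by omega) h3 (by omega) h5 hno
  refine le_trans ?_ key
  rw [Pe_eq, Pe_eq]
  refine Finset.sum_le_sum fun x _ => ?_
  have hx0 := cpy_nn hl.nonneg (slam F v) x
  by_cases h0 : cpy (Pool.Agent.H49.Ent.cond F.p A True) (slam F v) x = 0
  · rw [h0]
    simp
  obtain ⟨k1, k2, k3⟩ := KS6.cpy_pos hl h0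
  by_cases h6 : |kk (Fam.pt F x.1) - kk (Fam.pt F x.2)| ≤ 1 / 2 ^ ag
  swap
  · rw [if_neg h6]
    split_ifs
    · exact hx0
    · exact le_rfl
  rw [if_pos h6, if_pos]
  have hA1 := cond_mem k2
  have hA2 := cond_mem k3
  have e4 : slam F wc x.1 = slam F wc x.2 := by
    rw [slam_coarse F (w := wc) (w' := v) hv (by omega) x.1,
      slam_coarse F (w := wc) (w' := v) hv (by omega) x.2, k1]
  obtain ⟨g1, g2, g3⟩ := h.slm _ _ e4
  have ef := hf x.1 hA1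
  have ef' := hf x.2 hA2
  refine ⟨?_, ?_, ?_⟩
  · show |al (Fam.pt F x.1) - al (Fam.pt F x.2)| ≤ _
    have a1 := h.near _ hA1
    have a2 := h.near _ hA2
    rw [← g1] at a2
    have e1 : al (Fam.pt F x.1) - al (Fam.pt F x.2) =
        (al (Fam.pt F x.1) - a x.1) - (al (Fam.pt F x.2) - a x.1) := by ring
    rw [e1]
    refine (abs_sub _ _).trans ((add_le_add a1 a2).trans ?_)
    have e2 : B / (2 : ℝ) ^ V ≤ B / 2 ^ (l2 + kB) := div_pow_le hB0 h1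
    have e3 : B / (2 : ℝ) ^ (l2 + kB) + B / 2 ^ (l2 + kB) ≤ 1 / 2 ^ l2 := by
      rw [← add_div, div_le_div_iff₀ (by positivity) (by positivity), pow_add]
      have : (0 : ℝ) < 2 ^ l2 := by positivity
      nlinarith
    linarith
  · show |-(f (Fam.pt F x.1)).2.1 - -(f (Fam.pt F x.2)).2.1| ≤ _
    rw [ef, ef']
    show |-s x.1 - -s x.2| ≤ _
    rw [g2, sub_self, abs_zero]
    positivity
  · show |KS6.Ae (-((f (Fam.pt F x.1)).2.2 + kk (Fam.pt F x.1))) (-(f (Fam.pt F x.1)).2.1)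
      (-((f (Fam.pt F x.2)).2.2 + kk (Fam.pt F x.2))) (-(f (Fam.pt F x.2)).2.1)
      (al (Fam.pt F x.2))| ≤ _
    rw [ef, ef']
    have e1 : KS6.Ae (-((a x.1, s x.1, t x.1).2.2 + kk (Fam.pt F x.1))) (-(a x.1, s x.1, t x.1).2.1)
      (-((a x.2, s x.2, t x.2).2.2 + kk (Fam.pt F x.2))) (-(a x.2, s x.2, t x.2).2.1)
      (al (Fam.pt F x.2)) = -(kk (Fam.pt F x.1) - kk (Fam.pt F x.2)) := by
      show (-(t x.1 + kk (Fam.pt F x.1)) - -(t x.2 + kk (Fam.pt F x.2))) +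
        (-s x.1 - -s x.2) * al (Fam.pt F x.2) = _
      rw [g2, g3]
      ring
    rw [e1, abs_neg]
    exact h6

end PF

end Pool.RPL
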