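import Pool.Agent.H49.S6R.Fam

/-!
# The plateau of the thickness: the integer levels
-/

set_option autoImplicit false

namespace Pool.RPL

open Finset Real
open Pool.Agent.H49.Ent Pool.Agent.H32.Dense Pool.STK Pool.KA Pool.KSAT Pool.K2S Pool.PB
  Pool.KS6 Pool.S6C Pool.KA.Vd

variable {J : ℕ}

/-- Two windows. -/
def sel {α : Type} (a b : α) : ℕ → α
  | 0 => a
  | _ + 1 => b

/-- The real numbers of the levels: `Aw x` bounds the windows, `R` is the thickness of the boxes,
`rl`, `rc`, `tl`, `tc` are the numbers of the windows `ul`, `uc`. -/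
structure RLv (N n M m' : ℕ) (x θ η W g Pr R rl rc tl tc gP gG Aw C x₀ : ℝ) (ul uc : ℚ)
    (u : ℕ → ℚ) (th : ℕ → ℝ) : Prop where
  x0 : 0 < x
  θ0 : 0 < θ
  θ1 : θ ≤ 1 / 4
  θx : 4 * θ ≤ x₀
  η0 : 0 < η
  ηθ : 8 * η ≤ θ
  eR : R = g - W - θ * x
  W0 : 0 ≤ W
  Aw0 : 0 ≤ Aw
  ulW : W ≤ ul
  ulc : ul ≤ uc
  ucu : (uc : ℝ) + x ≤ u N
  ust : ∀ j < N, (u (j + 1) : ℝ) + x ≤ u j
  uw : ∀ j ≤ N, W ≤ u j ∧ (u j : ℝ) ≤ W + Aw * x
  r0 : 0 ≤ rl
  r1 : rl + 2 * x ≤ rc
  r2 : rc ≤ rl + (m' - 2) * x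
  r3 : rc + 2 * x ≤ R
  tl1 : ul + R + θ * x / 2 ≤ tl - η * x
  tl2 : |tl - g| ≤ Aw * x + x
  tc1 : uc + R + θ * x / 2 ≤ tc - η * x
  tc2 : |tc - g| ≤ Aw * x + x
  t2 : ∀ j < N, th j ≤ u j + R + 9 / 8 * (θ * x)
  s0 : W + Aw * x + x ≤ Pr - R
  s1 : Pr + (n + M + 3) * x ≤ 1
  s2 : Pr - R + rl + (n + M + 3) * x ≤ gP + W
  s3 : Pr + (n + M + 3) * x ≤ gG + W
  s4 : R + 17 / 8 * (θ * x) + x ≤ gG
  t3 : ∀ j < N, th j + θ * x ≤ 1
  CC : Aw + n + 6 ≤ C

/-- `J` is large. -/
structure JLg (J m' : ℕ) (x θ η μ x₀ lm : ℝ) (X₀ : ℕ) : Prop where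
  a1 : 32 ≤ θ * x * J
  a2 : (m' : ℝ) + 4 ≤ x * J
  a3 : (X₀ : ℝ) + 8 ≤ x * J
  a4 : Pool.UST.visC 8 8 + lm ≤ lm * (x * J)
  a5 : cst 8 (9 * 2 ^ (⌊η * x * J⌋₊ + 3)) ≤ μ * x * J

theorem floor_add {a b : ℝ} (ha : 0 ≤ a) (hb : 0 ≤ b) : ⌊a⌋₊ + ⌊b⌋₊ ≤ ⌊a + b⌋₊ := by
  refine Nat.le_floor ?_
  push_cast
  exact add_le_add (Nat.floor_le ha) (Nat.floor_le hb)

theorem nat_lt {a b : ℕ} (h : (a : ℝ) < b + 1) : a ≤ b := by
  have : ((a : ℕ) : ℝ) < ((b + 1 : ℕ) : ℝ) := by
    push_cast
    exact h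
  have : a < b + 1 := by exact_mod_cast this
  omega

/-- **The levels.** -/
theorem lev_rin {F : Fam 3 J} {A : F.Ω → Prop} {i₀ iu iN : Fin 3} {N M T m' X₀ : ℕ}
    {x θ η W g Pr R rl rc tl tc gP gG Aw C μ : ℝ} {ul uc : ℚ} {u : ℕ → ℚ} {th : ℕ → ℝ}
    {e n : (Fin 3 → ℤ) × (ℕ × F.ζ) → Fin 3 → ℝ} {z : ℕ → F.Ω → Pln}
    {c ca x₀ lm κ ϖ ε : ℝ}
    (L : RLv N (T * M) M m' x θ η W g Pr R rl rc tl tc gP gG Aw C x₀ ul uc u th)
    (hJ : JLg J m' x θ η μ x₀ lm X₀)
    (h : Pool.S6F.NLc F A i₀ iu iN 1 ⌊gP * J⌋₊ (fun j => ⌊((sel uc ul j : ℚ) : ℝ) * J⌋₊)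
      (fun j => ⌊sel (rc - η * x) (rl - η * x) j * J⌋₊)
      (fun j => ⌊sel (tc - η * x) (tl - η * x) j * J⌋₊) (fun _ => ⌊(R - rc) * J⌋₊) e n z)
    (hS : Pool.S6F.SnG F A i₀ iu iN ⌊gG * J⌋₊ e (z 1))
    (hcase : (∀ ω, A ω → |(z 1 ω).s| ≤ 2) ∨ ∀ ω, A ω → 2 ≤ |(z 1 ω).s|) (hA : 0 < Pe F.p A)
    (hM : 0 < M) (hc : 0 < c) (hμ : μ = c * Real.log 2 / 32) (hT : 2 * (m' : ℝ) < T * μ)
    (hlm : 0 < lm)
    (htime : ∀ X : ℕ, x / 2 * J ≤ X → (J : ℝ) * Real.log 2 - lm * X ≤
      CH (Pool.Agent.H49.Ent.cond F.p A True) F.T (fun ω => (F.l ω, F.Z ω)))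
    (hact : ∀ X : ℕ, x / 2 * J ≤ X → ∀ q X' : ℕ, κ * X ≤ X' → |(q : ℝ) - (Pr - g) * J| ≤ C * x * J →
      |((q + X' : ℕ) : ℝ) - (Pr - g) * J| ≤ C * x * J → ∀ E : F.Ω → Prop, Sub E A →
      ϖ * Pe F.p A ≤ Pe F.p E → ca * X' * Real.log 2 ≤
        CH (Pool.Agent.H49.Ent.cond F.p E True) (fun ω => F.D (q + X') ω i₀)
          (fun ω => (F.D q ω i₀, Fam.pt F ω)))
    (hrate : ∀ P₁ P₂ : ℕ, P₁ ≤ P₂ → |(P₁ : ℝ) - Pr * J| ≤ C * x * J →
      |(P₂ : ℝ) - Pr * J| ≤ C * x * J →
      CH (Pool.Agent.H49.Ent.cond F.p A True) (F.X P₂) (fun ω => (F.X P₁ ω, F.W ω)) ≤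
        (3 - c) * ((P₂ : ℝ) - P₁) * Real.log 2 + μ * x * J)
    (hnl : ∀ (l U P : ℕ) (q : ℝ), |q - (Pr - g)| ≤ C * x → ((ul : ℝ) + q) * J ≤ l + 2 →
      ((ul : ℝ) + rl + q) * J ≤ U + 2 → (P : ℝ) ≤ (tl + q) * J + 2 → l ≤ P → U ≤ P →
      F.vdf (Pool.Agent.H49.Ent.cond F.p A True) (ord i₀ iu iN) l U P (fra (z 1)) (frs (z 1))
        (frt (z 1)) (fun ω => ((), (z 1 ω, F.W ω))) ≤ μ * x * J)
    (hnc : ∀ (l U P : ℕ) (q : ℝ), |q - (Pr - g)| ≤ C * x → ((uc : ℝ) + q) * J ≤ l + 2 →
      ((uc : ℝ) + rc + q) * J ≤ U + 2 → (P : ℝ) ≤ (tc + q) * J + 2 → l ≤ P → U ≤ P →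
      F.vdf (Pool.Agent.H49.Ent.cond F.p A True) (ord i₀ iu iN) l U P (fra (z 0)) (frs (z 0))
        (frt (z 0)) (fun ω => (z 1 ω, (z 0 ω, F.W ω))) ≤ μ * x * J)
    (hε : 0 < ε)
    (hno : ∀ j < N, ∀ iu' iN' : Fin 3, (∀ j : Fin 3, j = i₀ ∨ j = iu' ∨ j = iN') →
      ∀ B' : F.Ω → Prop, Sub B' A →
      Real.exp (-(-Real.log ε + KS6.KC (8 + 9))) * Pe F.p A ≤ Pe F.p B' →
      ¬ KS6.LABq F J i₀ iu' iN' ⌊(u j : ℝ) * J⌋₊ 0 ⌊(th j + θ * x) * J⌋₊ 2 B') :
    ∃ (sg : Fin 3 → Fin 3) (X : ℕ) (w : ℕ → ℕ) (r U P : ℕ) (a s t : F.Ω → ℝ)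
      (kk bb : (Fin 3 → ℤ) × (ℕ × F.ζ) → ℝ), X₀ ≤ X ∧ RIn F A sg N M X w r U P a s t kk bb
      8 (c / 2) ca x₀ lm κ ϖ ε := by
  have hx := L.x0
  have hθ := L.θ0
  have hη := L.η0
  have hJ0 : (0 : ℝ) ≤ J := Nat.cast_nonneg J
  have hJp : (0 : ℝ) < J := by
    rcases hJ0.lt_or_eq with h0 | h0
    · exact h0
    · have := hJ.a1
      rw [← h0, mul_zero] at this
      linarith only [this]
  have mJ : ∀ {a b : ℝ}, a ≤ b → a * J ≤ b * J := fun h => mul_le_mul_of_nonneg_right h hJ0
  have hy : 128 ≤ x * J := by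
    have h1 := hJ.a1
    have h2 : θ * (x * J) ≤ 1 / 4 * (x * J) :=
      mul_le_mul_of_nonneg_right L.θ1 (mul_nonneg hx.le hJ0)
    linarith only [h1, h2]
  have hηJ : 8 * (η * x * J) ≤ θ * x * J := by
    have := mul_le_mul_of_nonneg_right L.ηθ (mul_nonneg hx.le hJ0)
    linarith
  have hθJ : 4 * (θ * x * J) ≤ x * J := by
    have := mul_le_mul_of_nonneg_right L.θ1 (mul_nonneg hx.le hJ0)
    linarith only [this]
  have hηJ0 : 0 ≤ η * x * J := by positivity
  have hR0 : 0 ≤ R := by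
    have h1 := L.r3
    have h2 := L.r1
    have h3 := L.r0
    linarith only [hx, h1, h2, h3]
  have hPr0 : R ≤ Pr := by
    have h1 := L.s0
    have h2 := L.W0
    have h3 : 0 ≤ Aw * x := mul_nonneg L.Aw0 hx.le
    linarith only [hx, h1, h2, h3]
  exact by
   have hl2 : Real.log 2 ≤ 0.7 := by
     have := Real.log_two_lt_d9
     linarith only [this]
   have hl2p : 0 < Real.log 2 := Real.log_pos (by norm_num)
   -- the integers
   obtain ⟨X, hX⟩ : ∃ X, X = ⌊x * J⌋₊ := ⟨_, rfl⟩
   have fX : (X : ℝ) ≤ x * J := by rw [hX]; exact Nat.floor_le (by positivity)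
   have fX' : x * J < X + 1 := by rw [hX]; exact Nat.lt_floor_add_one _
   obtain ⟨kV, hkV⟩ : ∃ kV, kV = ⌊(rl + x) * J⌋₊ := ⟨_, rfl⟩
   have fkV : (kV : ℝ) ≤ (rl + x) * J := by
     rw [hkV]
     exact Nat.floor_le (mul_nonneg (by linarith only [hx, L, L.r0]) hJ0)
   have fkV' : (rl + x) * J < kV + 1 := by rw [hkV]; exact Nat.lt_floor_add_one _
   obtain ⟨kR, hkR⟩ : ∃ kR, kR = ⌊R * J⌋₊ := ⟨_, rfl⟩
   have fkR : (kR : ℝ) ≤ R * J := by rw [hkR]; exact Nat.floor_le (mul_nonneg hR0 hJ0)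
   have fkR' : R * J < kR + 1 := by rw [hkR]; exact Nat.lt_floor_add_one _
   obtain ⟨p, hp⟩ : ∃ p, p = ⌊Pr * J⌋₊ := ⟨_, rfl⟩
   have fp : (p : ℝ) ≤ Pr * J := by
     rw [hp]; exact Nat.floor_le (mul_nonneg (hR0.trans hPr0) hJ0)
   have fp' : Pr * J < p + 1 := by rw [hp]; exact Nat.lt_floor_add_one _
   obtain ⟨δ', hδ'⟩ : ∃ δ', δ' = ⌈(rc - (rl + x)) * J⌉₊ := ⟨_, rfl⟩
   have fδ : (rc - (rl + x)) * J ≤ δ' := by rw [hδ']; exact Nat.le_ceil _
   have fδ' : (δ' : ℝ) < (rc - (rl + x)) * J + 1 := by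
     rw [hδ']
     refine Nat.ceil_lt_add_one (mul_nonneg ?_ hJ0)
     linarith only [hx, L, L.r1]
   obtain ⟨V0, hV0⟩ : ∃ V0, V0 = ⌊(rc - η * x) * J⌋₊ := ⟨_, rfl⟩
   have fV0' : (rc - η * x) * J < V0 + 1 := by rw [hV0]; exact Nat.lt_floor_add_one _
   obtain ⟨V1, hV1⟩ : ∃ V1, V1 = ⌊(rl - η * x) * J⌋₊ := ⟨_, rfl⟩
   have fV1' : (rl - η * x) * J < V1 + 1 := by rw [hV1]; exact Nat.lt_floor_add_one _
   exact by
    obtain ⟨H0, hH0⟩ : ∃ H0, H0 = ⌊(R - rc) * J⌋₊ := ⟨_, rfl⟩
    have fH0' : (R - rc) * J < H0 + 1 := by rw [hH0]; exact Nat.lt_floor_add_one _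
    obtain ⟨Pu, hPu⟩ : ∃ Pu, Pu = ⌊gP * J⌋₊ := ⟨_, rfl⟩
    have fPu' : gP * J < Pu + 1 := by rw [hPu]; exact Nat.lt_floor_add_one _
    obtain ⟨G, hG⟩ : ∃ G, G = ⌊gG * J⌋₊ := ⟨_, rfl⟩
    have fG' : gG * J < G + 1 := by rw [hG]; exact Nat.lt_floor_add_one _
    obtain ⟨w, hw⟩ : ∃ w : ℕ → ℕ, w = fun j => ⌊(u j : ℝ) * J⌋₊ := ⟨_, rfl⟩
    have hu0 : ∀ j ≤ N, (0 : ℝ) ≤ u j := fun j hj => L.W0.trans (L.uw j hj).1
    have fw : ∀ j ≤ N, (w j : ℝ) ≤ u j * J := fun j hj => by
      rw [hw]; exact Nat.floor_le (mul_nonneg (hu0 j hj) hJ0)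
    have fw' : ∀ j, (u j : ℝ) * J < w j + 1 := fun j => by
      rw [hw]; exact Nat.lt_floor_add_one _
    obtain ⟨d, hd⟩ : ∃ d, d = ⌊η * x * J⌋₊ + 3 := ⟨_, rfl⟩
    have fd : η * x * J + 2 < d := by
      rw [hd]
      push_cast
      linarith only [Nat.lt_floor_add_one (η * x * J)]
    have hul0 : (0 : ℝ) ≤ ul := L.W0.trans L.ulW
    have hulc : (ul : ℝ) ≤ uc := by exact_mod_cast L.ulc
    -- the real inequalities, times `J`
    have j1 := mJ L.r1
    have j2 := mJ L.r2
    have j3 := mJ L.r3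
    have j4 := mJ L.s0
    have j5 := mJ L.s1
    have j6 := mJ L.s2
    have j7 := mJ L.s3
    have j8 := mJ L.s4
    have jW : 0 ≤ W * J := mul_nonneg L.W0 hJ0
    have jr : 0 ≤ rl * J := mul_nonneg L.r0 hJ0
    exact by
     have hm4 : (4 : ℝ) ≤ m' := by
       have h1 := L.r1
       have h2 := L.r2
       by_contra hcon
       push Not at hcon
       have h3 : ((m' : ℝ) - 2) * x < 2 * x := mul_lt_mul_of_pos_right (by linarith only [hcon]) hx
       linarith only [h1, h2, h3]
     -- the integer inequalities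
     have I1 : kV + (X + δ' + 3) ≤ kR := nat_lt (by
       push_cast
       linarith only [fkV, fX, fδ', j3, fkR', hy])
     have I2 : kV ≤ V0 := by
       rw [hkV, hV0]
       refine Nat.floor_le_floor (mJ ?_)
       have h1 := L.r1
       have h2 := L.ηθ
       have h3 := L.θ1
       have h4 : η * x ≤ 1 * x := mul_le_mul_of_nonneg_right (by linarith only [hη, h2, h3]) hx.le
       linarith only [h1, h4]
     have I3 : V1 ≤ kV := by
       rw [hkV, hV1]
       refine Nat.floor_le_floor (mJ ?_)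
       have h4 : 0 ≤ η * x := by positivity
       linarith only [hx, h4]
     have I4 : ⌊(ul : ℝ) * J⌋₊ + kR ≤ ⌊(tl - η * x) * J⌋₊ := by
       rw [hkR]
       refine (floor_add (mul_nonneg hul0 hJ0) (mul_nonneg hR0 hJ0)).trans (Nat.floor_le_floor ?_)
       rw [← add_mul]
       refine mJ ?_
       have h1 := L.tl1
       have h2 : 0 ≤ θ * x := by positivity
       linarith only [h1, h2]
     exact by
      have I5 : ⌊(uc : ℝ) * J⌋₊ + kR ≤ ⌊(tc - η * x) * J⌋₊ := by
        rw [hkR]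
        refine (floor_add (mul_nonneg (hul0.trans hulc) hJ0) (mul_nonneg hR0 hJ0)).trans
          (Nat.floor_le_floor ?_)
        rw [← add_mul]
        refine mJ ?_
        have h1 := L.tc1
        have h2 : 0 ≤ θ * x := by positivity
        linarith only [h1, h2]
      have I6 : ⌊(ul : ℝ) * J⌋₊ ≤ ⌊(uc : ℝ) * J⌋₊ := Nat.floor_le_floor (mJ hulc)
      have I7 : 7 ≤ kV := nat_lt (by
        push_cast
        linarith only [fkV', jr, hy])
      have I8 : kR + X ≤ kV + (X + δ' + 3) + H0 := nat_lt (by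
        push_cast
        linarith only [fkR, fkV', fδ, fH0'])
      have I9 : X + δ' + 3 ≤ m' * X := nat_lt (by
        push_cast
        have h1 : ((m' : ℝ) - 3) * (x * J) ≤ ((m' : ℝ) - 3) * (X + 1) :=
          mul_le_mul_of_nonneg_left fX'.le (by linarith only [hl2, hl2p, hm4])
        have h2 := hJ.a2
        have h3 : (rc - (rl + x)) * J ≤ ((m' : ℝ) - 3) * (x * J) := by linarith only [j2]
        linarith only [h1, h2, h3, fδ', fX'])
      have I10 : kV ≤ V1 + X + d := nat_lt (by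
        push_cast
        linarith only [fkV, fV1', fX', fd])
      have I11 : kR ≤ p := by
        rw [hkR, hp]
        exact Nat.floor_le_floor (mJ hPr0)
      obtain ⟨r₀, hr₀⟩ : ∃ r₀, r₀ = p - kR := ⟨_, rfl⟩
      exact by
       have er : r₀ + kR = p := by omega
       have err : (r₀ : ℝ) + kR = p := by exact_mod_cast er
       have I12 : w 0 ≤ r₀ := nat_lt (by
         have h1 := fw 0 (Nat.zero_le _)
         have h2 := mJ (L.uw 0 (Nat.zero_le _)).2
         linarith only [h1, h2, j4, err, fp', fkR, hy])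
       have I13 : ⌊(uc : ℝ) * J⌋₊ ≤ w N := by
         rw [hw]
         exact Nat.floor_le_floor (mJ (by linarith only [hx, L, L.ucu]))
       have I14 : ∀ j < N, w (j + 1) + X ≤ w j := fun j hj => by
         rw [hw, hX]
         refine (floor_add (mul_nonneg (hu0 (j + 1) (by omega)) hJ0) (by positivity)).trans
           (Nat.floor_le_floor ?_)
         rw [← add_mul]
         exact mJ (L.ust j hj)
       have nX : ((T * M + M + 1 : ℕ) : ℝ) * X ≤ ((T * M + M + 1 : ℕ) : ℝ) * (x * J) :=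
         mul_le_mul_of_nonneg_left fX (Nat.cast_nonneg _)
       have nX2 : ((T * M + M : ℕ) : ℝ) * X ≤ ((T * M + M : ℕ) : ℝ) * (x * J) :=
         mul_le_mul_of_nonneg_left fX (Nat.cast_nonneg _)
       push_cast at nX nX2 j5 j6 j7
       have I15 : r₀ + kR + (T * M + M + 1) * X ≤ J := nat_lt (by
         push_cast
         linarith only [err, fp, nX, j5, hy])
       have hwN := mJ (L.uw N le_rfl).1
       have I16 : r₀ + kV + (T * M + M) * X ≤ Pu + w N := nat_lt (by
         push_cast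
         have h1 := fw' N
         linarith only [err, fp, fkR', fkV, nX2, j6, fPu', h1, hwN, hy])
       have I17 : r₀ + kR + (T * M + M + 1) * X ≤ G + w N := nat_lt (by
         push_cast
         have h1 := fw' N
         linarith only [err, fp, nX, j7, fG', h1, hwN, hy])
       exact by
        have hXh : x / 2 * J ≤ X := by linarith only [fX', hy]
        have hX0 : 0 < X := by
          have : (0 : ℝ) < X := by linarith only [fX', hy]
          exact_mod_cast this
        have hvis : Pool.UST.visC 8 8 ≤ lm * X := by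
          have h1 := hJ.a4
          have h2 : lm * (x * J) ≤ lm * (X + 1) := mul_le_mul_of_nonneg_left fX'.le hlm.le
          linarith only [h1, h2]
        have hX₀ : X₀ ≤ X := nat_lt (by
          have := hJ.a3
          linarith only [this, fX'])
        have kXle : ∀ k < T * M, ((k : ℝ) + 1) * X ≤ ((T * M : ℕ) : ℝ) * (x * J) := fun k hk => by
          have h1 : ((k : ℝ) + 1) ≤ ((T * M : ℕ) : ℝ) := by exact_mod_cast hk
          exact mul_le_mul h1 fX (Nat.cast_nonneg _) (Nat.cast_nonneg _)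
        have jC := mul_le_mul_of_nonneg_right L.CC (mul_nonneg hx.le hJ0)
        have jAw : 0 ≤ Aw * (x * J) := mul_nonneg L.Aw0 (mul_nonneg hx.le hJ0)
        have jn : 0 ≤ ((T * M : ℕ) : ℝ) * (x * J) := mul_nonneg (Nat.cast_nonneg _) (by positivity)
        push_cast at jC jn kXle
        have hkX0 : ∀ k : ℕ, (0 : ℝ) ≤ (k : ℝ) * X := fun k => by positivity
        have hμ0 : 0 < μ := by rw [hμ]; positivity
        -- the levels of the rows
        have hlev : ∀ k < T * M, |((r₀ + kR + k * X + X : ℕ) : ℝ) - Pr * J| ≤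
            ((T : ℝ) * M + 1) * (x * J) := fun k hk => by
          have h1 := kXle k hk
          have h2 := hkX0 k
          push_cast
          rw [abs_le]
          constructor
          · linarith only [err, fp', h2, hy, jn, Nat.cast_nonneg (α := ℝ) X]
          · linarith only [err, fp, h1, hy]
        exact by
         have hq : ∀ (k : ℕ) (tt : ℝ), k < T * M → |tt - g| ≤ Aw * x + x →
             |((r₀ + kR + k * X + X : ℕ) : ℝ) / J - tt - (Pr - g)| ≤ C * x := fun k tt hk htt => by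
           have h1 := hlev k hk
           have h2 : |((r₀ + kR + k * X + X : ℕ) : ℝ) / J - Pr| ≤ ((T : ℝ) * M + 1) * x := by
             have e1 : ((r₀ + kR + k * X + X : ℕ) : ℝ) / J - Pr =
                 (((r₀ + kR + k * X + X : ℕ) : ℝ) - Pr * J) / J := by
               field_simp
             rw [e1, abs_div, abs_of_pos hJp, div_le_iff₀ hJp]
             linarith only [h1]
           have e2 : ((r₀ + kR + k * X + X : ℕ) : ℝ) / J - tt - (Pr - g) =
               (((r₀ + kR + k * X + X : ℕ) : ℝ) / J - Pr) - (tt - g) := by ring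
           rw [e2]
           have h3 := mul_le_mul_of_nonneg_right L.CC hx.le
           push_cast at h3
           have h4 := abs_sub (((r₀ + kR + k * X + X : ℕ) : ℝ) / J - Pr) (tt - g)
           linarith only [h2, h3, h4, htt, hx]
         have hqJ : ∀ (k : ℕ) (tt a : ℝ), (a + (((r₀ + kR + k * X + X : ℕ) : ℝ) / J - tt)) * J =
             a * J + ((r₀ + kR + k * X + X : ℕ) : ℝ) - tt * J := fun k tt a => by
           field_simp
           ring
         have mtl := mJ L.tl1
         have mtc := mJ L.tc1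
         have key := rin_of_nl (T := T) (m' := m') (δ := X + δ' + 3) (kV := kV) (kR := kR) (r₀ := r₀)
           (d := d) (w := w) (P2 := fun j => ⌊(th j + θ * x) * J⌋₊) (c := c) (ca := ca) (x₀ := x₀)
           (lm := lm) (κ := κ) (ϖ := ϖ) (ε := ε) (β := μ * x * J) (e₀ := μ * x * J) (e₁ := μ * x * J)
           (e₂ := μ * x * J) h hS hcase hA hX0 hM (by
             have : (0 : ℝ) < m' := by linarith only [hl2, hl2p, hm4]
             exact_mod_cast this) I1 I7 (by
             show kV ≤ ⌊(rc - η * x) * J⌋₊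
             rw [← hV0]
             exact I2) (by
             show ⌊(rl - η * x) * J⌋₊ ≤ kV
             rw [← hV1]
             exact I3) I4 I5 I6 (by
             show kR + X ≤ kV + (X + δ' + 3) + ⌊(R - rc) * J⌋₊
             rw [← hH0]
             exact I8) (by
             show kV ≤ ⌊(rl - η * x) * J⌋₊ + X + d
             rw [← hV1]
             exact I10) I12 I13 I14 I15 (by rw [← hPu]; exact I16) (by rw [← hG]; exact I17)
           (htime X hXh) hvis ?_ ?_ ?_ ?_ I9 ?_ ?_ hε (by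
             have := L.θx
             linarith only [hθ, this]) ?_ ?_
         · obtain ⟨sg, k₀, a, s, t, kk, bb, hk⟩ := key
           exact ⟨sg, X, w, _, _, _, a, s, t, kk, bb, hX₀, hk⟩
         · -- act
           intro j hj k hk n' X' h1 h2 E hE hPE
           have b1 : w j ≤ w 0 := win_le I14 (Nat.zero_le j) hj.le
           obtain ⟨q, hq'⟩ : ∃ q, q = r₀ + k * X - w j + n' := ⟨_, rfl⟩
           have e1 : q + w j = r₀ + k * X + n' := by omega
           have e2 : (q : ℝ) + w j = r₀ + k * X + n' := by exact_mod_cast e1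
           have e3 : r₀ + k * X - w j + n' + X' = q + X' := by omega
           have h3 : (n' : ℝ) + X' ≤ X := by exact_mod_cast h2
           have h4 := kXle k hk
           have h5 := hkX0 k
           have h6 := mJ (L.uw j hj.le).1
           have h7 := mJ (L.uw j hj.le).2
           have h8 := fw j hj.le
           have h9 := fw' j
           have eRJ : R * J = (g - W - θ * x) * J := by rw [L.eR]
           have n0 : (0 : ℝ) ≤ n' := Nat.cast_nonneg _
           have x0 : (0 : ℝ) ≤ X' := Nat.cast_nonneg _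
           have hθJ0 : 0 ≤ θ * x * J := by positivity
           rw [e3, ← hq']
           refine hact X hXh q X' h1 ?_ ?_ E hE hPE
           · rw [abs_le]
             constructor
             · linarith only [e2, err, fp', fkR, h5, h7, h8, eRJ, n0, hθJ0, jC, jn, hy]
             · linarith only [e2, err, fp, fkR', h4, h3, x0, h6, h9, eRJ, hθJ, jC, jn, jAw, hy]
           · rw [abs_le]
             push_cast
             constructor
             · linarith only [e2, err, fp', fkR, h5, h7, h8, eRJ, n0, x0, hθJ0, jC, jn, hy]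
             · linarith only [e2, err, fp, fkR', h4, h3, h6, h9, eRJ, hθJ, jC, jn, jAw, hy]
         · -- rate
           intro k hk
           have h1 := hlev k hk
           have h2 := kXle k hk
           have h3 := hkX0 k
           have h4 := hrate (r₀ + kR + k * X) (r₀ + kR + k * X + X) (by omega) (by
             push_cast
             rw [abs_le]
             constructor
             · linarith only [err, fp', h3, jC, jAw, jn, hy]
             · linarith only [err, fp, h2, jC, jAw, jn, hy, Nat.cast_nonneg (α := ℝ) X]) (by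
             refine h1.trans ?_
             linarith only [jC, jAw, hy])
           refine h4.trans (le_of_eq ?_)
           push_cast
           ring
         · -- the coarser window
           intro k hk
           refine hnl _ _ _ (((r₀ + kR + k * X + X : ℕ) : ℝ) / J - tl) (hq k tl hk L.tl2) ?_ ?_ ?_
             (by omega) (by omega)
           · rw [hqJ]
             push_cast
             linarith only [mtl, fkR, hηJ, hηJ0, hθJ]
           · rw [hqJ]
             push_cast
             linarith only [mtl, fkR, fkV', fX, hηJ, hηJ0, hθJ]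
           · have e1 := hqJ k tl tl
             rw [e1]
             linarith only [hl2, hl2p]
         · -- the finer window
           intro k hk
           refine hnc _ _ _ (((r₀ + kR + k * X + X : ℕ) : ℝ) / J - tc) (hq k tc hk L.tc2) ?_ ?_ ?_
             (by omega) (by omega)
           · rw [hqJ]
             push_cast
             linarith only [mtc, fkR, hηJ, hηJ0, hθJ, Nat.cast_nonneg (α := ℝ) X,
               Nat.cast_nonneg (α := ℝ) δ']
           · rw [hqJ]
             push_cast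
             linarith only [mtc, fkR, fkV', fX, fδ, hηJ, hηJ0, hθJ, Nat.cast_nonneg (α := ℝ) X]
           · have e1 := hqJ k tc tc
             rw [e1]
             linarith only [hl2, hl2p]
         · -- the information of the direction
           have h1 : (kV : ℝ) - (⌊(rl - η * x) * J⌋₊ : ℕ) ≤ 2 * (x * J) := by
             rw [← hV1]
             linarith only [fkV, fV1', hηJ, hθJ, hy]
           have h0 : (0 : ℝ) ≤ (kV : ℝ) - (⌊(rl - η * x) * J⌋₊ : ℕ) := by
             rw [← hV1]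
             have : (V1 : ℝ) ≤ kV := by exact_mod_cast I3
             linarith only [this]
           have h2 : Real.log (5 * 9) ≤ 4.2 := by
             have e1 : Real.log (5 * 9) ≤ Real.log ((2 : ℝ) ^ 6) :=
               Real.log_le_log (by norm_num) (by norm_num)
             have e2 : Real.log ((2 : ℝ) ^ 6) = 6 * Real.log 2 := by
               rw [Real.log_pow]
               norm_num
             rw [e2] at e1
             exact e1.trans (by linarith only [hl2])
           generalize Real.log (5 * 9) = l45 at h2 ⊢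
           have h3 : ((kV : ℝ) - (⌊(rl - η * x) * J⌋₊ : ℕ)) * Real.log 2 ≤ 2 * (x * J) * 0.7 :=
             mul_le_mul h1 hl2 hl2p.le (by positivity)
           have h4 : (m' : ℝ) * (((kV : ℝ) - (⌊(rl - η * x) * J⌋₊ : ℕ)) * Real.log 2 +
               l45) ≤ m' * (2 * (x * J)) :=
             mul_le_mul_of_nonneg_left (by linarith only [h3, h2, hy]) (by linarith only [hm4])
           have h5 : 2 * (m' : ℝ) * (x * J) < T * μ * (x * J) :=
             mul_lt_mul_of_pos_right hT (by positivity)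
           refine lt_of_le_of_lt h4 ?_
           linarith only [h5]
         · -- the sum
           have h1 := hJ.a5
           rw [← hd] at h1
           have h2 : 5 * (μ * x * J) ≤ c / 2 * X * Real.log 2 := by
             have h3 : 5 / 16 * (x * J) ≤ X := by linarith only [fX', hy]
             have h4 : c * Real.log 2 / 2 * (5 / 16 * (x * J)) ≤ c * Real.log 2 / 2 * X :=
               mul_le_mul_of_nonneg_left h3 (by positivity)
             rw [hμ]
             linarith only [h4]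
           linarith only [h1, h2]
         · -- the thickness
           intro j hj
           have h1 := mJ (L.t2 j hj)
           have h2 := fw' j
           have h3 : (x₀ : ℝ) * X < ⌊x₀ * X⌋₊ + 1 := Nat.lt_floor_add_one _
           have hx0 : 4 * θ ≤ x₀ := L.θx
           have h4 : x₀ * (3 / 4 * (x * J)) ≤ x₀ * X :=
             mul_le_mul_of_nonneg_left (by linarith only [fX', hy]) (by linarith only [hθ, hx0])
           have h5 : 4 * θ * (3 / 4 * (x * J)) ≤ x₀ * (3 / 4 * (x * J)) :=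
             mul_le_mul_of_nonneg_right hx0 (by positivity)
           have h6 := hJ.a1
           refine ⟨Nat.floor_le_of_le ?_, Nat.floor_le_of_le ?_, Nat.floor_le_of_le ?_⟩
           · push_cast
             linarith only [h1, h2, h3, h4, h5, h6, fkR']
           · rw [← hG]
             push_cast
             linarith only [h1, h2, fG', j8, hy]
           · have h7 := mJ (L.t3 j hj)
             linarith only [h7]
         · -- no planks
           intro j hj iu' iN' hi B' hB hP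
           rw [hw]
           exact hno j hj iu' iN' hi B' hB hP

end Pool.RPL
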