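import Pool.Agent.H49.S6R.Fld
import Pool.Agent.H49.S6R.Dfc

/-!
# The plateau of the thickness: the data of one family
-/

set_option autoImplicit false

namespace Pool.RPL

open Finset Real
open Pool.Agent.H49.Ent Pool.Agent.H32.Dense Pool.STK Pool.KA Pool.KSAT Pool.K2S Pool.PB
  Pool.KA.Vd

variable {J : ℕ}

/-- Windows with gaps. -/
theorem win_le {w : ℕ → ℕ} {X N : ℕ} (h : ∀ j < N, w (j + 1) + X ≤ w j) {i j : ℕ} (hij : i ≤ j)
    (hj : j ≤ N) : w j ≤ w i := by
  induction j, hij using Nat.le_induction with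
  | base => exact le_rfl
  | succ j hij ih =>
    have := h j (by omega)
    have := ih (by omega)
    omega

/-- **The data of one family**, for one of the groups of `M` rows. -/
theorem exists_rin {F : Fam 3 J} {A : F.Ω → Prop} {sg : Fin 3 → Fin 3}
    {N M T X m' δ wc kV kR Pu PN r₀ Vl : ℕ} {w : ℕ → ℕ} {a s t el ec sc tc : F.Ω → ℝ}
    {al nu kk bb : (Fin 3 → ℤ) × (ℕ × F.ζ) → ℝ} {τ τ' : Type} {Θ : F.Ω → τ} {Ξ : F.Ω → τ'}
    {c ca x₀ lm κ ϖ ε D β e₀ e₁ e₂ : ℝ}
    (hPF : PF F A sg wc kV Pu PN kR a s t al nu kk bb 8) (hA : 0 < Pe F.p A)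
    (hX : 0 < X) (hM : 0 < M) (hm : 0 < m')
    (hVR : kV + δ ≤ kR) (hw0 : w 0 ≤ r₀) (hwc : wc ≤ w N)
    (hstep : ∀ j < N, w (j + 1) + X ≤ w j)
    (htop : r₀ + kR + (T * M + M + 1) * X ≤ J)
    (hPu : r₀ + kV + (T * M + M) * X ≤ Pu + w N)
    (hPN : r₀ + kR + (T * M + M + 1) * X ≤ PN + w N)
    (htime : (J : ℝ) * Real.log 2 - lm * X ≤
      CH (Pool.Agent.H49.Ent.cond F.p A True) F.T (fun ω => (F.l ω, F.Z ω)))
    (hvis : Pool.UST.visC 8 8 ≤ lm * X)
    (hact : ∀ j < N, ∀ k < T * M, ∀ n X' : ℕ, κ * X ≤ X' → n + X' ≤ X → ∀ E : F.Ω → Prop,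
      Sub E A → ϖ * Pe F.p A ≤ Pe F.p E → ca * X' * Real.log 2 ≤
        CH (Pool.Agent.H49.Ent.cond F.p E True)
          (fun ω => F.D (r₀ + k * X - w j + n + X') ω (sg 0))
          (fun ω => (F.D (r₀ + k * X - w j + n) ω (sg 0), Fam.pt F ω)))
    (hrate : ∀ k < T * M, CH (Pool.Agent.H49.Ent.cond F.p A True) (F.X (r₀ + kR + k * X + X))
      (fun ω => (F.X (r₀ + kR + k * X) ω, F.W ω)) ≤ (3 - c) * X * Real.log 2 + e₀)
    (hvdl : ∀ k < T * M, F.vdf (Pool.Agent.H49.Ent.cond F.p A True) sg (r₀ + k * X + X)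
      (r₀ + kV + k * X) (r₀ + kR + k * X + X) el s t Θ ≤ e₁)
    (hvdc : ∀ k < T * M, F.vdf (Pool.Agent.H49.Ent.cond F.p A True) sg (r₀ + k * X + X + δ)
      (r₀ + kV + k * X + δ) (r₀ + kR + k * X + X) ec sc tc Ξ ≤ e₂)
    (hΘ : Det (Pool.Agent.H49.Ent.cond F.p A True) Θ F.W)
    (hfl : Fd (Pool.Agent.H49.Ent.cond F.p A True) Θ el s t)
    (hΞ : Det (Pool.Agent.H49.Ent.cond F.p A True) Ξ Θ)
    (hfc : Fd (Pool.Agent.H49.Ent.cond F.p A True) Ξ ec sc tc)
    (hfa : Det (Pool.Agent.H49.Ent.cond F.p A True) Ξ a)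
    (hel : ∀ ω, A ω → |el ω| ≤ 8)
    (hbc : ∀ ω, A ω → |ec ω| ≤ 8 ∧ |sc ω| ≤ 8 ∧ |tc ω| ≤ 8)
    (hD : 1 ≤ D)
    (hn1 : ∀ ω, A ω → |a ω - el ω| ≤ D * 2 ^ X / 2 ^ kV)
    (hn2 : ∀ k < T * M, ∀ ω, A ω → Fnr (r₀ + k * X + X + δ) (r₀ + kV + k * X + δ)
      (r₀ + kR + k * X + X) D (ec ω) (sc ω) (tc ω) (a ω) (s ω) (t ω))
    (hδ : δ ≤ m' * X)
    (hrd : ∀ ω, ∃ n : ℤ, a ω = n / 2 ^ kV) (hVl : Vl ≤ kV)
    (hn3 : ∀ ω, A ω → |a ω - el ω| ≤ 9 / 2 ^ Vl)
    (hh : m' * (((kV : ℝ) - Vl) * Real.log 2 + Real.log (5 * 9)) < T * β)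
    (hsum : e₀ + e₁ + e₂ + β + cst 8 D ≤ c / 2 * X * Real.log 2)
    (hx₀ : 0 < x₀)
    (h6 : ∀ j < N, Pe (cpy (Pool.Agent.H49.Ent.cond F.p A True) (slam F (w j)))
      (fun x => |kk (Fam.pt F x.1) - kk (Fam.pt F x.2)| ≤ 1 / 2 ^ (kR + ⌊x₀ * X⌋₊)) ≤ ε) :
    ∃ k₀ : ℕ, RIn F A sg N M X w (r₀ + k₀ * X) (r₀ + kV + k₀ * X) (r₀ + kR + k₀ * X) a s t kk bb
      8 (c / 2) ca x₀ lm κ ϖ ε := by
  have hl := isLaw_cond F.isLaw hA
  -- the good rows
  have hloss : CH (Pool.Agent.H49.Ent.cond F.p A True) a Θ ≤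
      ((kV : ℝ) - Vl) * Real.log 2 + Real.log (5 * 9) := by
    refine CH_rd hl a Θ hVl hrd el (fun ω ω' x y e => (hfl.eq x y e).1) (by norm_num) ?_
    intro ω hω
    exact hn3 ω (cond_mem hω)
  have hls := lss_sum (F := F) (p := Pool.Agent.H49.Ent.cond F.p A True) (σ := sg) (a := a)
    (el := el) (sl := s) (tl := t) hl (r := r₀ + X) (U := r₀ + kV) (P := r₀ + kR + X) hδ Θ (T * M)
  obtain ⟨g, hg, hgk⟩ := exists_rows (fun k => lss F (Pool.Agent.H49.Ent.cond F.p A True) sg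
      (r₀ + X + k * X) (r₀ + kV + k * X) (r₀ + kR + X + k * X) δ a el s t Θ)
    (fun k => lss_nonneg hl Θ) (M := M) (T := T)
    (S := m' * (((kV : ℝ) - Vl) * Real.log 2 + Real.log (5 * 9))) (β := β) (by
      refine le_trans ?_ (hls.trans (mul_le_mul_of_nonneg_left hloss (Nat.cast_nonneg m')))
      refine Finset.sum_le_sum_of_subset_of_nonneg ?_ fun k _ _ => lss_nonneg hl Θ
      exact Finset.range_subset_range.2 (Nat.le_mul_of_pos_right _ hm)) hh
  have hgM : (g + 1) * M ≤ T * M := Nat.mul_le_mul_right _ hg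
  have hrow : ∀ k < M, g * M + k < T * M := fun k hk => by
    have : (g + 1) * M = g * M + M := by ring
    omega
  have hkX : ∀ k < M, (g * M + k) * X + X ≤ T * M * X := fun k hk => by
    have h1 := hrow k hk
    calc (g * M + k) * X + X = (g * M + k + 1) * X := by ring
      _ ≤ T * M * X := Nat.mul_le_mul_right _ (by omega)
  have eT1 : (T * M + M) * X = T * M * X + M * X := by ring
  have eT2 : (T * M + M + 1) * X = T * M * X + M * X + X := by ring
  have eT3 : (M + 1) * X = M * X + X := by ring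
  have hgX : g * M * X ≤ T * M * X := Nat.mul_le_mul_right _ (by
    have : (g + 1) * M = g * M + M := by ring
    omega)
  have hwj : ∀ j ≤ N, w N ≤ w j ∧ w j ≤ w 0 := fun j hj =>
    ⟨win_le hstep hj le_rfl, win_le hstep (Nat.zero_le j) hj⟩
  refine ⟨g * M, hPF.bij, hl, by omega, by omega, by omega, hstep, ?_, htime, ?_, ?_, ?_, ?_, ?_,
    ?_, ?_, ?_⟩
  · -- top
    rw [eT3]
    rw [eT2] at htop
    omega
  · -- det
    intro ω ω' _ _ e
    have e4 : slam F wc ω = slam F wc ω' := by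
      have hwN : w N ≤ J := by
        have := (hwj N le_rfl).2
        rw [eT2] at htop
        omega
      rw [slam_coarse F (w := wc) (w' := w N) hwc hwN ω,
        slam_coarse F (w := wc) (w' := w N) hwc hwN ω', e]
    obtain ⟨k1, k2, k3⟩ := hPF.slm ω ω' e4
    exact Prod.ext k1 (Prod.ext k2 k3)
  · -- bd
    intro ω hω
    obtain ⟨b1, b2, b3⟩ := hPF.bd ω hω
    exact ⟨b1, by linarith, b3⟩
  · -- str
    intro ω hω
    refine (hPF.on2 ω hω).trans (div_pow_le (by norm_num) ?_)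
    rw [eT3]
    rw [eT2] at hPN
    omega
  · -- kbd
    intro ω hω
    refine (hPF.kle ω hω).trans (le_of_eq ?_)
    congr 2
    omega
  · -- vis
    intro j hj k hk
    have h1 := (hwj j hj.le).1
    have h2 := (hwj j hj.le).2
    have h3 := hkX k hk
    have e3 : (g * M + k) * X = g * M * X + k * X := by ring
    rw [eT2] at htop hPN
    rw [eT1] at hPu
    have key := hPF.vis (by norm_num) (w := w j) (q := r₀ + g * M * X + k * X - w j)
      (U := r₀ + kV + g * M * X + k * X) (P := r₀ + kR + g * M * X + k * X) (hwc.trans h1)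
      (by omega) (by omega) (by omega) (by omega) (by omega) (by omega) (by omega) (by omega)
      (by omega) hA
    have e5 : w j + (r₀ + g * M * X + k * X - w j) = r₀ + g * M * X + k * X := by omega
    rw [e5] at key
    exact key.trans hvis
  · -- dfc
    intro k hk
    have h3 := hkX k hk
    have e3 : (g * M + k) * X = g * M * X + k * X := by ring
    have hb : ∀ ω, 0 < Pool.Agent.H49.Ent.cond F.p A True ω → A ω := fun ω hω => cond_mem hω
    have key := dfc_row (F := F) (σ := sg) (a := a) (el := el) (sl := s) (tl := t) (ec := ec)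
      (sc := sc) (tc := tc) hl hPF.bij (r := r₀ + g * M * X + k * X)
      (U := r₀ + kV + g * M * X + k * X) (P := r₀ + kR + g * M * X + k * X) (X := X) (δ := δ)
      (B := 8) (D := D) (by norm_num) hD (by omega) (by omega) (by omega)
      (fun ω hω => (hPF.bd ω (hb ω hω)).1)
      (fun ω hω => ⟨hel ω (hb ω hω), (hPF.bd ω (hb ω hω)).2.1.trans (by norm_num),
        (hPF.bd ω (hb ω hω)).2.2⟩) (fun ω hω => hbc ω (hb ω hω))
      (fun ω hω => by
        refine (hn1 ω (hb ω hω)).trans (le_of_eq ?_)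
        have e6 : (2 : ℝ) ^ (r₀ + g * M * X + k * X + X) =
            2 ^ (r₀ + g * M * X + k * X) * 2 ^ X := pow_add _ _ _
        have e7 : (2 : ℝ) ^ (r₀ + kV + g * M * X + k * X) =
            2 ^ (r₀ + g * M * X + k * X) * 2 ^ kV := by
          rw [← pow_add]
          congr 1
          ring
        rw [e6, e7]
        field_simp)
      (fun ω hω => by
        have := hn2 (g * M + k) (hrow k hk) ω (hb ω hω)
        rw [e3, ← add_assoc, ← add_assoc, ← add_assoc] at this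
        exact this) Θ Ξ hΘ hfl hΞ hfc hfa
    have r1 := hrate (g * M + k) (hrow k hk)
    have r2 := hvdl (g * M + k) (hrow k hk)
    have r3 := hvdc (g * M + k) (hrow k hk)
    have r4 := hgk k hk
    beta_reduce at r4
    rw [e3, ← add_assoc] at r1
    rw [e3, ← add_assoc, ← add_assoc, ← add_assoc] at r2 r3
    have e8 : r₀ + X + (g * M + k) * X = r₀ + g * M * X + k * X + X := by ring
    have e9 : r₀ + kV + (g * M + k) * X = r₀ + kV + g * M * X + k * X := by ring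
    have e10 : r₀ + kR + X + (g * M + k) * X = r₀ + kR + g * M * X + k * X + X := by ring
    rw [e8, e9, e10] at r4
    refine key.trans ?_
    have e11 : (3 - c) * X * Real.log 2 - X * Real.log 2 + c / 2 * X * Real.log 2 =
      (2 - c / 2) * X * Real.log 2 := by ring
    linarith
  · -- act
    intro j hj k hk n X' h1 h2 E hE hPE
    have key := hact j hj (g * M + k) (hrow k hk) n X' h1 h2 E hE hPE
    have e3 : r₀ + (g * M + k) * X = r₀ + g * M * X + k * X := by ring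
    rw [e3] at key
    exact key
  · -- h6
    intro j hj
    refine le_trans ?_ (h6 j hj)
    have e1 : r₀ + kR + g * M * X - (r₀ + g * M * X) = kR := by omega
    rw [e1]
    rw [Pe_eq, Pe_eq]
    refine Finset.sum_le_sum fun x _ => ?_
    have hx0 := cpy_nn hl.nonneg (slam F (w j)) x
    by_cases h5 : |kk (Fam.pt F x.1) - kk (Fam.pt F x.2)| * 2 ^ kR < (2 : ℝ) ^ (-(x₀ * X))
    swap
    · rw [if_neg h5]
      split_ifs
      · exact hx0
      · exact le_rfl
    rw [if_pos h5, if_pos]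
    have pk : (0 : ℝ) < 2 ^ kR := by positivity
    have h6 : (2 : ℝ) ^ (-(x₀ * X)) ≤ 1 / 2 ^ ⌊x₀ * X⌋₊ := by
      rw [Real.rpow_neg (by norm_num), one_div]
      refine inv_anti₀ (by positivity) ?_
      rw [← Real.rpow_natCast]
      refine Real.rpow_le_rpow_of_exponent_le (by norm_num) (Nat.floor_le ?_)
      positivity
    rw [pow_add, one_div, mul_inv]
    have h7 := h5.le.trans h6
    rw [← le_div_iff₀ pk] at h7
    refine h7.trans (le_of_eq ?_)
    field_simp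

end Pool.RPL
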